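import Pool.Agent.MP_9ab903_nt.MF.A
import Pool.Agent.MP_9c45e8_nt.B

/-!
[NC11] Reduction of the cusp conditions to `i∞` with the Fricke matrices, and the
constancy of bounded invariant holomorphic functions on `Γ₀(11)`.
-/

open Complex
open UpperHalfPlane hiding I
open scoped MatrixGroups Real ModularForm Manifold

namespace X11

open MP9c45e8 (mob jj jj_ne_zero mob_im mob_im_pos jj_mul mob_mul
  isPreconnected_H isOpen_H differentiableAt_mob mob_smul jj_smul ne_zero_of_im mob_one jj_one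
  det_upper sub_div_im)

/-- Every cusp is equivalent to `i∞` under Atkin-Lehner matrices. -/
theorem exists_AL {σ : Matrix (Fin 2) (Fin 2) ℤ} (hσ : σ.det = 1) :
    ∃ Q β : ℤ, QQ Q ∧ IsAL Q (σ * !![Q, β; 0, 1]) := by
  have hd := hσ
  rw [Matrix.det_fin_two] at hd
  have main : ∀ Q : ℤ, QQ Q → IsCoprime (σ 1 0) Q → 11 ∣ σ 1 0 * Q →
      ∃ β, IsAL Q (σ * !![Q, β; 0, 1]) := by
    intro Q hQ hco h11
    obtain ⟨u, v, huv⟩ := hco
    refine ⟨-(σ 1 1) * u, ?_, ?_, ?_, ?_⟩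
    · rw [Matrix.det_mul, hσ, Matrix.det_fin_two_of]; ring
    · rw [Matrix.mul_apply, Fin.sum_univ_two]; simp
    · rw [Matrix.mul_apply, Fin.sum_univ_two]
      simp only [Matrix.of_apply, Matrix.cons_val', Matrix.cons_val_zero, Matrix.cons_val_one,
        Matrix.cons_val_fin_one]
      exact ⟨σ 1 1 * v, by linear_combination (-(σ 1 1)) * huv⟩
    · rw [Matrix.mul_apply, Fin.sum_univ_two]; simpa using h11
  have hp11 : Prime (11 : ℤ) := Int.prime_iff_natAbs_prime.mpr (by norm_num)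
  by_cases h11 : (11 : ℤ) ∣ σ 1 0
  · obtain ⟨β, hβ⟩ := main 1 (Or.inl rfl) isCoprime_one_right (by omega)
    exact ⟨1, β, Or.inl rfl, hβ⟩
  · obtain ⟨β, hβ⟩ := main 11 (Or.inr rfl) ((Prime.coprime_iff_not_dvd hp11).mpr h11).symm
      (by omega)
    exact ⟨11, β, Or.inr rfl, hβ⟩

/-- `σ z = M ((z - β)/Q)` -/
theorem mob_eq_AL {σ : Matrix (Fin 2) (Fin 2) ℤ} (hσ : σ.det = 1) {Q β : ℤ} (hQ : QQ Q) {z : ℂ}
    (hz : 0 < z.im) :
    0 < ((z - β) / Q).im ∧ mob σ z = mob (σ * !![Q, β; 0, 1]) ((z - β) / Q) ∧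
      jj (σ * !![Q, β; 0, 1]) ((z - β) / Q) = jj σ z := by
  have hQ0 : (0 : ℝ) < Q := by exact_mod_cast hQ.pos
  have hQC : (Q : ℂ) ≠ 0 := by exact_mod_cast hQ.pos.ne'
  have him : ((z - β) / Q).im = z.im / Q := by
    have : ((Q : ℂ)) = ((Q : ℝ) : ℂ) := by push_cast; rfl
    rw [this, Complex.div_ofReal_im]
    simp
  have hpos : 0 < ((z - β) / Q).im := by rw [him]; positivity
  have hdet : 0 < (!![Q, β; 0, 1] : Matrix (Fin 2) (Fin 2) ℤ).det := by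
    rw [det_upper]; exact hQ.pos
  have e : mob !![Q, β; 0, 1] ((z - β) / Q) = z := by
    simp [mob]
    field_simp
    ring
  have e2 : jj !![Q, β; 0, 1] ((z - β) / Q) = 1 := by simp [jj]
  refine ⟨hpos, ?_, ?_⟩
  · rw [mob_mul (by rw [hσ]; norm_num) hdet hpos, e]
  · rw [jj_mul hdet hpos, e, e2, mul_one]

/-- A holomorphic `Γ₀(11)`-invariant function bounded at all cusps is constant. -/
theorem const_of_invariant (h : ℂ → ℂ) (hd : DifferentiableOn ℂ h {z | 0 < z.im})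
    (hinv : ∀ M : Matrix (Fin 2) (Fin 2) ℤ, M.det = 1 → 11 ∣ M 1 0 →
      ∀ z : ℂ, 0 < z.im → h (mob M z) = h z)
    (hb : ∀ M : Matrix (Fin 2) (Fin 2) ℤ, M.det = 1 →
      ∃ A B : ℝ, ∀ z : ℂ, 0 < z.im → A ≤ z.im → ‖h (mob M z)‖ ≤ B) :
    ∃ c : ℂ, ∀ z : ℂ, 0 < z.im → h z = c := by
  have key : ∀ (γ : SL(2, ℤ)) (τ : ℍ),
      ((fun τ : ℍ ↦ h τ) ∣[(0 : ℤ)] γ) τ = h (mob (γ : Matrix (Fin 2) (Fin 2) ℤ) τ) := by
    intro γ τ
    rw [ModularForm.SL_slash_apply]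
    simp only [neg_zero, zpow_zero, mul_one]
    congr 1
    rw [UpperHalfPlane.coe_specialLinearGroup_apply]
    simp [mob]
  let f : ModularForm (CongruenceSubgroup.Gamma0 11) 0 :=
    { toFun := fun τ ↦ h τ
      slash_action_eq' := by
        rintro _ ⟨γ, hγ, rfl⟩
        ext τ
        have h1 := key γ τ
        have h2 : (((γ : Matrix (Fin 2) (Fin 2) ℤ) 1 0 : ℤ) : ZMod 11) = 0 :=
          CongruenceSubgroup.Gamma0_mem.mp hγ
        rw [hinv γ.1 γ.2 ((ZMod.intCast_zmod_eq_zero_iff_dvd _ 11).mp h2) τ τ.im_pos] at h1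
        exact h1
      holo' := by
        rw [UpperHalfPlane.mdifferentiable_iff]
        refine hd.congr ?_
        intro z hz
        simp [ofComplex_apply_of_im_pos hz]
      bdd_at_cusps' := by
        intro c hc
        rw [Subgroup.IsArithmetic.isCusp_iff_isCusp_SL2Z] at hc
        rw [OnePoint.isBoundedAt_iff_forall_SL2Z hc]
        intro γ _
        rw [UpperHalfPlane.isBoundedAtImInfty_iff]
        obtain ⟨A, B, hAB⟩ := hb γ.1 γ.2
        refine ⟨B, A, fun τ hτ ↦ ?_⟩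
        have := key γ τ
        change ‖((fun τ : ℍ ↦ h τ) ∣[(0 : ℤ)] γ) τ‖ ≤ B
        rw [this]
        exact hAB τ τ.im_pos hτ }
  obtain ⟨c, hc⟩ := ModularForm.eq_const_of_weight_zero f
  exact ⟨c, fun z hz ↦ congrFun hc ⟨z, hz⟩⟩

/-- It suffices to check boundedness at `i∞` after Atkin-Lehner matrices. -/
theorem const_of_AL (h : ℂ → ℂ) (hd : DifferentiableOn ℂ h {z | 0 < z.im})
    (hinv : ∀ M : Matrix (Fin 2) (Fin 2) ℤ, M.det = 1 → 11 ∣ M 1 0 →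
      ∀ z : ℂ, 0 < z.im → h (mob M z) = h z)
    (hb : ∀ (Q : ℤ) (M : Matrix (Fin 2) (Fin 2) ℤ), QQ Q → IsAL Q M →
      ∃ A B : ℝ, ∀ z : ℂ, 0 < z.im → A ≤ z.im → ‖h (mob M z)‖ ≤ B) :
    ∃ c : ℂ, ∀ z : ℂ, 0 < z.im → h z = c := by
  refine const_of_invariant h hd hinv fun σ hσ ↦ ?_
  obtain ⟨Q, β, hQ, hAL⟩ := exists_AL hσ
  obtain ⟨A, B, hAB⟩ := hb Q _ hQ hAL
  have hQ0 : (0 : ℝ) < Q := by exact_mod_cast hQ.pos
  refine ⟨A * Q, B, fun z hz hA ↦ ?_⟩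
  obtain ⟨h1, h2, _⟩ := mob_eq_AL hσ (β := β) hQ hz
  rw [h2]
  refine hAB _ h1 ?_
  rw [sub_div_im, le_div_iff₀ hQ0]
  exact hA

end X11
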