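import Pool.Agent.MP_9c45e8_nt.A3

/-!
[NC11] The eta quotient `η(z)²η(11z)²` and the modular unit `(η(11z)/η(z))²⁴`:
transformation under `Γ₀(11)` and the Fricke matrices.
-/

open Complex
open UpperHalfPlane hiding I
open scoped MatrixGroups Real ModularForm

namespace X11

open MP9c45e8 (mob jj jj_ne_zero mob_im mob_im_pos jj_mul mob_mul eta_add_nat eta24_mob eta_S
  isPreconnected_H isOpen_H const_of_pow_eq_one differentiableAt_eta differentiableAt_eta_mul
  differentiableAt_mob mob_smul jj_smul eta24_eq csqrt_mul csqrt_sq ne_zero_of_im mob_one jj_one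
  smul_im_pos reps_mul_adj)

/-- The weight two eta product `η(z)²η(11z)²`. -/
noncomputable def etaF (z : ℂ) : ℂ := η z ^ 2 * η (11 * z) ^ 2

/-- The modular unit `(η(11z)/η(z))²⁴`. -/
noncomputable def RR (z : ℂ) : ℂ := (η (11 * z) / η z) ^ 24

theorem im11 {z : ℂ} (hz : 0 < z.im) : 0 < (11 * z).im := by
  have := smul_im_pos hz (n := 11) (by norm_num)
  simpa using this

theorem etaF_add_one (z : ℂ) : etaF (z + 1) = etaF z := by
  have h1 := eta_add_nat z 1
  have h11 := eta_add_nat (11 * z) 11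
  push_cast at h1 h11
  have e : cexp (2 * π * I * 1 / 24) ^ 2 * cexp (2 * π * I * 11 / 24) ^ 2 = 1 := by
    rw [← Complex.exp_nat_mul, ← Complex.exp_nat_mul, ← Complex.exp_add]
    rw [Complex.exp_eq_one_iff]
    exact ⟨1, by push_cast; ring⟩
  unfold etaF
  rw [show 11 * (z + 1) = 11 * z + 11 by ring, h1, h11]
  calc _ = (cexp (2 * π * I * 1 / 24) ^ 2 * cexp (2 * π * I * 11 / 24) ^ 2) *
      (η z ^ 2 * η (11 * z) ^ 2) := by ring
    _ = _ := by rw [e, one_mul]

theorem etaF_ne_zero {z : ℂ} (hz : 0 < z.im) : etaF z ≠ 0 := by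
  unfold etaF
  exact mul_ne_zero (pow_ne_zero 2 (ModularForm.eta_ne_zero hz))
    (pow_ne_zero 2 (ModularForm.eta_ne_zero (im11 hz)))

theorem RR_ne_zero {z : ℂ} (hz : 0 < z.im) : RR z ≠ 0 := by
  unfold RR
  exact pow_ne_zero _ (div_ne_zero (ModularForm.eta_ne_zero (im11 hz))
    (ModularForm.eta_ne_zero hz))

theorem differentiableAt_etaF {z : ℂ} (hz : 0 < z.im) : DifferentiableAt ℂ etaF z := by
  unfold etaF
  exact ((differentiableAt_eta hz).pow 2).mul ((differentiableAt_eta_mul 11 (im11 hz)).pow 2)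

theorem differentiableAt_RR {z : ℂ} (hz : 0 < z.im) : DifferentiableAt ℂ RR z := by
  unfold RR
  exact ((differentiableAt_eta_mul 11 (im11 hz)).div (differentiableAt_eta hz)
    (ModularForm.eta_ne_zero hz)).pow 24

theorem differentiableOn_etaF : DifferentiableOn ℂ etaF {z | 0 < z.im} :=
  fun _ hz ↦ (differentiableAt_etaF hz).differentiableWithinAt

theorem differentiableOn_RR : DifferentiableOn ℂ RR {z | 0 < z.im} :=
  fun _ hz ↦ (differentiableAt_RR hz).differentiableWithinAt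

/-- `g(Mz) det M = ε (cz+d)² g(z)`. -/
def TF (g : ℂ → ℂ) (ε : ℂ) (M : Matrix (Fin 2) (Fin 2) ℤ) : Prop :=
  ∀ z : ℂ, 0 < z.im → g (mob M z) * M.det = ε * jj M z ^ 2 * g z

theorem TF.mul {g : ℂ → ℂ} {ε ε' : ℂ} {M N : Matrix (Fin 2) (Fin 2) ℤ} (hM : 0 < M.det)
    (hN : 0 < N.det) (h : TF g ε M) (h' : TF g ε' N) : TF g (ε * ε') (M * N) := by
  intro z hz
  rw [mob_mul hM hN hz, jj_mul hN hz, Matrix.det_mul, Int.cast_mul]
  have h1 := h _ (mob_im_pos hN hz)
  have h2 := h' z hz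
  calc _ = (g (mob M (mob N z)) * M.det) * N.det := by ring
    _ = ε * jj M (mob N z) ^ 2 * (g (mob N z) * N.det) := by rw [h1]; ring
    _ = _ := by rw [h2]; ring

theorem TF.of_smul {g : ℂ → ℂ} {ε : ℂ} {k : ℤ} (hk : k ≠ 0) {M : Matrix (Fin 2) (Fin 2) ℤ}
    (h : TF g ε (k • M)) : TF g ε M := by
  intro z hz
  have hk' : (k : ℂ) ≠ 0 := by exact_mod_cast hk
  have := h z hz
  rw [mob_smul hk, jj_smul, Matrix.det_smul] at this
  simp only [Fintype.card_fin, Int.cast_mul, Int.cast_pow] at this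
  apply mul_left_cancel₀ (pow_ne_zero 2 hk')
  calc _ = g (mob M z) * ((k : ℂ) ^ 2 * M.det) := by ring
    _ = _ := by rw [this]; ring

/-! ### The elliptic matrices -/

/-- The elliptic matrix `(11a, b; 11c, -11a)` of determinant `11`. -/
def EM (a b c : ℤ) : Matrix (Fin 2) (Fin 2) ℤ := !![11 * a, b; 11 * c, -11 * a]

theorem EM_det {a b c : ℤ} (h : 11 * a ^ 2 + b * c = -1) : (EM a b c).det = 11 := by
  simp only [EM, Matrix.det_fin_two_of]
  linarith

section EM

variable {a b c : ℤ}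

theorem EM_jj (z : ℂ) : jj (EM a b c) z = 11 * (c * z - a) := by
  simp [jj, EM]; ring

variable (h : 11 * a ^ 2 + b * c = -1)
include h

theorem c_ne_zero : c ≠ 0 := by
  rintro rfl
  have : 0 ≤ 11 * a ^ 2 := by positivity
  simp at h
  linarith

theorem EM_eta1 {z : ℂ} (hz : 0 < z.im) :
    η (mob (EM a b c) z) ^ 24 = (11 * (c * z - a)) ^ 12 * η (11 * z) ^ 24 := by
  have hd : (!![a, b; c, -11 * a] : Matrix (Fin 2) (Fin 2) ℤ).det = 1 := by
    simp only [Matrix.det_fin_two_of]; linarith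
  refine eta24_eq hd (im11 hz) ?_ ?_
  · simp [mob, EM]; ring
  · simp [jj]; ring

theorem EM_eta11 {z : ℂ} (hz : 0 < z.im) :
    η (11 * mob (EM a b c) z) ^ 24 = (c * z - a) ^ 12 * η z ^ 24 := by
  have hd : (!![11 * a, b; c, -a] : Matrix (Fin 2) (Fin 2) ℤ).det = 1 := by
    simp only [Matrix.det_fin_two_of]; linarith
  have hj : jj (EM a b c) z ≠ 0 := jj_ne_zero (by rw [EM_det h]; norm_num) hz
  rw [EM_jj] at hj
  have hj' : (c : ℂ) * z - a ≠ 0 := by
    intro h0; exact hj (by rw [h0]; ring)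
  refine eta24_eq hd hz ?_ ?_
  · simp only [mob, EM, Matrix.of_apply, Matrix.cons_val', Matrix.cons_val_zero,
      Matrix.cons_val_one, Matrix.cons_val_fin_one, Int.cast_mul, Int.cast_ofNat, Int.cast_neg]
    rw [show (11 * (c : ℂ) * z + -11 * a) = 11 * (c * z - a) by ring,
      show ((c : ℂ) * z + -a) = (c * z - a) by ring]
    field_simp
  · simp [jj]; ring

/-- The fixed point of `EM a b c`. -/
theorem EM_fixed : ∃ z : ℂ, 0 < z.im ∧ mob (EM a b c) z = z ∧ jj (EM a b c) z ^ 2 = -11 := by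
  have hc := c_ne_zero h
  have hcC : (c : ℂ) ≠ 0 := by exact_mod_cast hc
  have key : ∀ s : ℂ, s ^ 2 = -11 →
      mob (EM a b c) ((11 * a + s) / (11 * c)) = (11 * a + s) / (11 * c)
      ∧ jj (EM a b c) ((11 * a + s) / (11 * c)) ^ 2 = -11 := by
    intro s hs
    have hs0 : s ≠ 0 := by rintro rfl; norm_num at hs
    have hj : jj (EM a b c) ((11 * a + s) / (11 * c)) = s := by
      rw [EM_jj]; field_simp; ring
    refine ⟨?_, by rw [hj, hs]⟩
    have : mob (EM a b c) ((11 * a + s) / (11 * c)) =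
      (11 * a * ((11 * a + s) / (11 * c)) + b) / jj (EM a b c) ((11 * a + s) / (11 * c)) := by
      simp [mob, EM, jj]
    rw [this, hj]
    have hC : (11 * (a : ℂ) ^ 2 + b * c) = -1 := by exact_mod_cast h
    field_simp
    linear_combination 11 * hC - hs
  have hsq : ((√11 : ℝ) : ℂ) ^ 2 = 11 := by
    rw [← Complex.ofReal_pow, Real.sq_sqrt (by norm_num)]; norm_num
  have h11 : (0 : ℝ) < √11 := by positivity
  rcases lt_or_gt_of_ne hc with hc' | hc'
  · refine ⟨(11 * a + (-(√11 : ℝ) * I)) / (11 * c), ?_, key _ ?_⟩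
    · have : ((11 * (a : ℂ) + (-(√11 : ℝ) * I)) / (11 * c)).im = -(√11) / (11 * c) := by
        have e : (11 * (c : ℂ)) = ((11 * c : ℝ) : ℂ) := by push_cast; ring
        rw [e, Complex.div_ofReal_im]
        simp
      rw [this]
      apply div_pos_of_neg_of_neg
      · linarith
      · have : (c : ℝ) < 0 := by exact_mod_cast hc'
        linarith
    · rw [mul_pow, neg_pow, hsq, I_sq]; norm_num
  · refine ⟨(11 * a + ((√11 : ℝ) * I)) / (11 * c), ?_, key _ ?_⟩
    · have : ((11 * (a : ℂ) + ((√11 : ℝ) * I)) / (11 * c)).im = (√11) / (11 * c) := by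
        have e : (11 * (c : ℂ)) = ((11 * c : ℝ) : ℂ) := by push_cast; ring
        rw [e, Complex.div_ofReal_im]
        simp
      rw [this]
      have : (0 : ℝ) < c := by exact_mod_cast hc'
      positivity
    · rw [mul_pow, hsq, I_sq]; norm_num

theorem EM_TF : TF etaF (-1) (EM a b c) := by
  have hdet := EM_det h
  have hdet' : 0 < (EM a b c).det := by rw [hdet]; norm_num
  set g : ℂ → ℂ := fun z ↦ etaF (mob (EM a b c) z) * 11 / (jj (EM a b c) z ^ 2 * etaF z) with hg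
  have hgc : ContinuousOn g {z | 0 < z.im} := by
    intro z hz
    have hz' : 0 < z.im := hz
    have h1 : ContinuousAt (fun z ↦ etaF (mob (EM a b c) z)) z :=
      ContinuousAt.comp (g := etaF) (f := mob (EM a b c))
        (differentiableAt_etaF (mob_im_pos hdet' hz')).continuousAt
        (differentiableAt_mob hdet' hz').continuousAt
    have h2 : ContinuousAt (fun z ↦ jj (EM a b c) z) z := by unfold jj; fun_prop
    have h3 : ContinuousAt etaF z := (differentiableAt_etaF hz').continuousAt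
    exact (ContinuousAt.div (h1.mul continuousAt_const) ((h2.pow 2).mul h3)
      (mul_ne_zero (pow_ne_zero 2 (jj_ne_zero hdet' hz')) (etaF_ne_zero hz'))).continuousWithinAt
  have hg1 : ∀ z : ℂ, 0 < z.im → g z ^ 12 = 1 := by
    intro z hz
    have hj := jj_ne_zero hdet' hz
    have hf := etaF_ne_zero hz
    rw [hg]
    simp only
    rw [div_pow, div_eq_one_iff_eq (pow_ne_zero _ (mul_ne_zero (pow_ne_zero 2 hj) hf)), mul_pow,
      mul_pow]
    have e : etaF (mob (EM a b c) z) ^ 12 = (11 * (c * z - a)) ^ 12 * (c * z - a) ^ 12 *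
        etaF z ^ 12 := by
      unfold etaF
      rw [mul_pow, ← pow_mul, ← pow_mul, EM_eta1 h hz, EM_eta11 h hz]
      ring
    rw [e, EM_jj]
    ring
  obtain ⟨z₀, hz₀, hfix, hjj⟩ := EM_fixed h
  have hg0 : g z₀ = -1 := by
    simp only [hg, hfix, hjj]
    have := etaF_ne_zero hz₀
    field_simp
  intro z hz
  have := const_of_pow_eq_one (by norm_num) hgc hg1 hz hz₀
  rw [hg0] at this
  simp only [hg] at this
  rw [div_eq_iff (mul_ne_zero (pow_ne_zero 2 (jj_ne_zero hdet' hz)) (etaF_ne_zero hz))] at this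
  rw [hdet]
  push_cast
  rw [this]
  ring

end EM

/-! ### `Γ₀(11)` -/

/-- Elements of `Γ₀(11)` fixing `etaF`. -/
structure HG (M : Matrix (Fin 2) (Fin 2) ℤ) : Prop where
  det : M.det = 1
  dvd : 11 ∣ M 1 0
  tf : TF etaF 1 M

theorem HG.pos {M : Matrix (Fin 2) (Fin 2) ℤ} (h : HG M) : 0 < M.det := by
  rw [h.det]; norm_num

theorem HG.mul {M N : Matrix (Fin 2) (Fin 2) ℤ} (hM : HG M) (hN : HG N) : HG (M * N) where
  det := by rw [Matrix.det_mul, hM.det, hN.det, mul_one]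
  dvd := by
    rw [Matrix.mul_apply, Fin.sum_univ_two]
    exact dvd_add (Dvd.dvd.mul_right hM.dvd _) (Dvd.dvd.mul_left hN.dvd _)
  tf := by simpa using TF.mul hM.pos hN.pos hM.tf hN.tf

theorem HG.one : HG 1 where
  det := Matrix.det_one
  dvd := by simp
  tf := by intro z hz; simp [mob_one, jj_one]

theorem HG.neg {M : Matrix (Fin 2) (Fin 2) ℤ} (hM : HG M) : HG (-M) := by
  have e : M = (-1 : ℤ) • (-M) := by simp
  refine ⟨?_, ?_, ?_⟩
  · rw [Matrix.det_neg, hM.det]; simp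
  · have := hM.dvd; simpa using this
  · exact TF.of_smul (k := -1) (by norm_num) (e ▸ hM.tf)

theorem HG.adj {M : Matrix (Fin 2) (Fin 2) ℤ} (hM : HG M) : HG M.adjugate := by
  have hd : M.adjugate.det = 1 := by rw [Matrix.det_adjugate, hM.det]; simp
  have hd' : 0 < M.adjugate.det := by rw [hd]; norm_num
  have key : ∀ z : ℂ, 0 < z.im → mob M (mob M.adjugate z) = z ∧
      jj M (mob M.adjugate z) * jj M.adjugate z = 1 := by
    intro z hz
    have h1 := mob_mul hM.pos hd' hz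
    have h2 := jj_mul (M := M) hd' hz
    rw [Matrix.mul_adjugate, hM.det, one_smul] at h1 h2
    rw [← h1, ← h2, mob_one, jj_one]
    exact ⟨rfl, rfl⟩
  refine ⟨hd, ?_, ?_⟩
  · rw [Matrix.adjugate_fin_two]
    simpa using hM.dvd
  · intro z hz
    obtain ⟨k1, k2⟩ := key z hz
    have h1 := hM.tf _ (mob_im_pos hd' hz)
    rw [k1, hM.det] at h1
    rw [hd]
    simp only [Int.cast_one, mul_one, one_mul] at h1 ⊢
    rw [h1]
    calc _ = (jj M (mob M.adjugate z) * jj M.adjugate z) ^ 2 * etaF (mob M.adjugate z) := by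
          rw [k2]; ring
      _ = _ := by ring

theorem HG.T : HG !![1, 1; 0, 1] where
  det := by simp
  dvd := by simp
  tf := by
    intro z hz
    simp [mob, jj, etaF_add_one]

theorem HG.EE {a b c a' b' c' : ℤ} (h : 11 * a ^ 2 + b * c = -1)
    (h' : 11 * a' ^ 2 + b' * c' = -1) {M : Matrix (Fin 2) (Fin 2) ℤ} (hd : M.det = 1)
    (hdvd : 11 ∣ M 1 0) (hM : (11 : ℤ) • M = EM a b c * EM a' b' c') : HG M := by
  have p1 : 0 < (EM a b c).det := by rw [EM_det h]; norm_num
  have p2 : 0 < (EM a' b' c').det := by rw [EM_det h']; norm_num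
  refine ⟨hd, hdvd, ?_⟩
  have := TF.mul p1 p2 (EM_TF h) (EM_TF h')
  rw [← hM] at this
  simpa using TF.of_smul (by norm_num) this

/-- coset representatives of `Γ₀(11)` in `SL₂(ℤ)` -/
def reps : List (Matrix (Fin 2) (Fin 2) ℤ) :=
  [!![1, 0; 0, 1], !![0, -1; 1, 0], !![0, -1; 1, 1], !![0, -1; 1, -1], !![0, -1; 1, 2],
    !![0, -1; 1, -2], !![0, -1; 1, 3], !![0, -1; 1, -3], !![0, -1; 1, 4], !![0, -1; 1, -4],
    !![0, -1; 1, 5], !![0, -1; 1, -5]]

def g1 : Matrix (Fin 2) (Fin 2) ℤ := !![1, 0; 11, 1]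
def g2 : Matrix (Fin 2) (Fin 2) ℤ := !![4, -1; -11, 3]
def g3 : Matrix (Fin 2) (Fin 2) ℤ := !![4, 1; 11, 3]
def g4 : Matrix (Fin 2) (Fin 2) ℤ := !![5, -1; 11, -2]
def g5 : Matrix (Fin 2) (Fin 2) ℤ := !![5, 1; -11, -2]

def goods0 : List (Matrix (Fin 2) (Fin 2) ℤ) := [1, !![1, 1; 0, 1], g1, g2, g3, g4, g5]

def goods : List (Matrix (Fin 2) (Fin 2) ℤ) :=
  (goods0 ++ goods0.map Matrix.adjugate) ++ (goods0 ++ goods0.map Matrix.adjugate).map (- ·)

theorem table : ∀ r ∈ reps, ∀ s ∈ [!![0, -1; 1, 0], !![0, 1; -1, 0], !![1, 1; 0, 1],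
    !![1, -1; 0, (1 : ℤ)]], ∃ r' ∈ reps, r * s * !![r' 1 1, -r' 0 1; -r' 1 0, r' 0 0] ∈ goods := by
  decide +kernel

theorem reps_one : ∀ r ∈ reps, 11 ∣ r 1 0 → r = 1 := by decide +kernel

theorem reps_det : ∀ r ∈ reps, r.det = 1 := by
  intro r hr
  simp only [reps, List.mem_cons, List.not_mem_nil, or_false] at hr
  rcases hr with rfl | rfl | rfl | rfl | rfl | rfl | rfl | rfl | rfl | rfl | rfl | rfl <;> simp

theorem HG_g1 : HG g1 := by
  have hP : HG !![1, 1; 11, 12] := HG.EE (a := -1) (b := 1) (c := -12) (a' := 0) (b' := -1)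
    (c' := 1) (by norm_num) (by norm_num) (by decide +kernel) (by decide +kernel)
    (by decide +kernel)
  have h := hP.mul HG.T.adj
  have e : g1 = (!![1, 1; 11, 12] * (!![1, 1; 0, 1] : Matrix (Fin 2) (Fin 2) ℤ).adjugate) := by
    decide +kernel
  rw [e]; exact h

theorem HG_g2 : HG g2 := HG.EE (a := -7) (b := -27) (c := 20) (a' := 1) (b' := 4) (c' := -3)
  (by norm_num) (by norm_num) (by decide +kernel) (by decide +kernel) (by decide +kernel)

theorem HG_g3 : HG g3 := HG.EE (a := -7) (b := 27) (c := -20) (a' := 1) (b' := -4) (c' := 3)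
  (by norm_num) (by norm_num) (by decide +kernel) (by decide +kernel) (by decide +kernel)

theorem HG_g4 : HG g4 := HG.EE (a := -5) (b := 23) (c := -12) (a' := 2) (b' := -9) (c' := 5)
  (by norm_num) (by norm_num) (by decide +kernel) (by decide +kernel) (by decide +kernel)

theorem HG_g5 : HG g5 := HG.EE (a := -5) (b := -23) (c := 12) (a' := 2) (b' := 9) (c' := -5)
  (by norm_num) (by norm_num) (by decide +kernel) (by decide +kernel) (by decide +kernel)

theorem goods0_HG : ∀ g ∈ goods0, HG g := by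
  intro g hg
  simp only [goods0, List.mem_cons, List.not_mem_nil, or_false] at hg
  rcases hg with rfl | rfl | rfl | rfl | rfl | rfl | rfl
  · exact HG.one
  · exact HG.T
  · exact HG_g1
  · exact HG_g2
  · exact HG_g3
  · exact HG_g4
  · exact HG_g5

theorem goods_HG : ∀ g ∈ goods, HG g := by
  have h0 := goods0_HG
  have h1 : ∀ g ∈ goods0 ++ goods0.map Matrix.adjugate, HG g := by
    intro g hg
    rw [List.mem_append, List.mem_map] at hg
    rcases hg with hg | ⟨g', hg', rfl⟩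
    · exact h0 g hg
    · exact (h0 g' hg').adj
  intro g hg
  rw [goods, List.mem_append, List.mem_map] at hg
  rcases hg with hg | ⟨g', hg', rfl⟩
  · exact h1 g hg
  · exact (h1 g' hg').neg

theorem step {γ s : Matrix (Fin 2) (Fin 2) ℤ}
    (hs : s ∈ [!![0, -1; 1, 0], !![0, 1; -1, 0], !![1, 1; 0, 1], !![1, -1; 0, (1 : ℤ)]])
    (h : ∃ h r, HG h ∧ r ∈ reps ∧ γ = h * r) : ∃ h r, HG h ∧ r ∈ reps ∧ γ * s = h * r := by
  obtain ⟨h, r, hh, hr, rfl⟩ := h
  obtain ⟨r', hr', hg⟩ := table r hr s hs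
  refine ⟨h * (r * s * !![r' 1 1, -r' 0 1; -r' 1 0, r' 0 0]), r', hh.mul (goods_HG _ hg), hr', ?_⟩
  rw [mul_assoc, mul_assoc, mul_assoc, mul_assoc, reps_mul_adj (reps_det r' hr'), mul_one]

theorem exists_decomp (γ : SL(2, ℤ)) :
    ∃ h r, HG h ∧ r ∈ reps ∧ (γ : Matrix (Fin 2) (Fin 2) ℤ) = h * r := by
  have hγ : γ ∈ Subgroup.closure {ModularGroup.S, ModularGroup.T} := by
    rw [SpecialLinearGroup.SL2Z_generators]; trivial
  induction hγ using Subgroup.closure_induction_right with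
  | one => exact ⟨1, 1, HG.one, by simp [reps, Matrix.one_fin_two], by simp⟩
  | mul_right x hx y hy ih =>
    rw [Matrix.SpecialLinearGroup.coe_mul]
    refine step ?_ ih
    rcases hy with rfl | rfl
    · simp [ModularGroup.S]
    · simp [ModularGroup.T]
  | mul_inv_cancel x hx y hy ih =>
    rw [Matrix.SpecialLinearGroup.coe_mul, Matrix.SpecialLinearGroup.coe_inv]
    refine step ?_ ih
    rcases hy with rfl | rfl
    · simp [ModularGroup.S, Matrix.adjugate_fin_two]
    · simp [ModularGroup.T, Matrix.adjugate_fin_two]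

/-- `etaF` is invariant under `Γ₀(11)`. -/
theorem HG_of_Gamma0 {M : Matrix (Fin 2) (Fin 2) ℤ} (hdet : M.det = 1) (h11 : 11 ∣ M 1 0) :
    HG M := by
  obtain ⟨h, r, hh, hr, e⟩ := exists_decomp ⟨M, hdet⟩
  have e : M = h * r := e
  have h2 : r = h.adjugate * M := by
    rw [e, ← mul_assoc, Matrix.adjugate_mul, hh.det, one_smul, one_mul]
  have h3 : 11 ∣ r 1 0 := by
    rw [h2, Matrix.mul_apply, Fin.sum_univ_two]
    exact dvd_add (Dvd.dvd.mul_right hh.adj.dvd _) (Dvd.dvd.mul_left h11 _)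
  rw [reps_one r hr h3, mul_one] at e
  rw [e]
  exact hh

/-! ### Atkin-Lehner type matrices -/

/-- Atkin-Lehner type matrices of level `11`. -/
structure IsAL (Q : ℤ) (M : Matrix (Fin 2) (Fin 2) ℤ) : Prop where
  det : M.det = Q
  d0 : Q ∣ M 0 0
  d1 : Q ∣ M 1 1
  d11 : 11 ∣ M 1 0

/-- the possible values of `Q` -/
def QQ (Q : ℤ) : Prop := Q = 1 ∨ Q = 11

theorem QQ.pos {Q : ℤ} (h : QQ Q) : 0 < Q := by
  rcases h with rfl | rfl <;> norm_num

theorem IsAL.pos {Q : ℤ} {M : Matrix (Fin 2) (Fin 2) ℤ} (h : IsAL Q M) (hQ : QQ Q) :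
    0 < M.det := by rw [h.det]; exact hQ.pos

/-- The sign of the Atkin-Lehner operator on `etaF`. -/
def epsQ (Q : ℤ) : ℤ := if Q = 1 then 1 else -1

theorem epsQ_sq (Q : ℤ) : (epsQ Q : ℂ) ^ 2 = 1 := by
  unfold epsQ; split_ifs <;> norm_num

theorem epsQ_ne_zero (Q : ℤ) : (epsQ Q : ℂ) ≠ 0 := by
  unfold epsQ; split_ifs <;> norm_num

theorem AL11 {M : Matrix (Fin 2) (Fin 2) ℤ} (hM : IsAL 11 M) : TF etaF (-1) M := by
  obtain ⟨x, hx⟩ := hM.d0
  obtain ⟨w, hw⟩ := hM.d1
  obtain ⟨z, hz⟩ := hM.d11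
  have hdet := hM.det
  set y := M 0 1 with hy
  have hM : M = !![11 * x, y; 11 * z, 11 * w] := by
    ext i j; fin_cases i <;> fin_cases j <;> simp [hx, hw, hz, hy]
  have hd : 11 * x * w - y * z = 1 := by
    rw [hM, Matrix.det_fin_two_of] at hdet
    linarith
  set G : Matrix (Fin 2) (Fin 2) ℤ := !![z, w; -11 * x, -y] with hG
  have hG1 : HG G := by
    apply HG_of_Gamma0
    · rw [hG, Matrix.det_fin_two_of]
      linear_combination hd
    · rw [hG]
      exact ⟨-x, by simp⟩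
  have hh : 11 * (0 : ℤ) ^ 2 + (-1) * 1 = -1 := by norm_num
  have e : M = EM 0 (-1) 1 * G := by
    rw [hM, hG, EM]
    ext i j
    fin_cases i <;> fin_cases j <;> simp [Matrix.mul_apply, Fin.sum_univ_two]
  have hp : 0 < (EM 0 (-1) 1).det := by rw [EM_det hh]; norm_num
  have := TF.mul hp hG1.pos (EM_TF hh) hG1.tf
  rwa [← e, mul_one] at this

theorem IsAL.tf {Q : ℤ} {M : Matrix (Fin 2) (Fin 2) ℤ} (hQ : QQ Q) (h : IsAL Q M) :
    TF etaF (epsQ Q) M := by
  rcases hQ with rfl | rfl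
  · simpa [epsQ] using (HG_of_Gamma0 h.det h.d11).tf
  · simpa [epsQ] using AL11 h

/-! ### The unit -/

theorem RR_Gamma0 {M : Matrix (Fin 2) (Fin 2) ℤ} (hM : IsAL 1 M) {z : ℂ} (hz : 0 < z.im) :
    RR (mob M z) = RR z := by
  obtain ⟨k, hk⟩ := hM.d11
  have hdet := hM.det
  have hp : 0 < M.det := by rw [hdet]; norm_num
  have hj := jj_ne_zero hp hz
  have hd : (!![M 0 0, 11 * M 0 1; k, M 1 1] : Matrix (Fin 2) (Fin 2) ℤ).det = 1 := by
    rw [Matrix.det_fin_two] at hdet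
    rw [Matrix.det_fin_two_of]
    rw [hk] at hdet
    linarith
  have e1 := eta24_mob hdet hz
  have e2 : η (11 * mob M z) ^ 24 = jj M z ^ 12 * η (11 * z) ^ 24 := by
    refine eta24_eq hd (im11 hz) ?_ ?_
    · simp only [mob, Matrix.of_apply, Matrix.cons_val', Matrix.cons_val_zero,
        Matrix.cons_val_one, Matrix.cons_val_fin_one, Int.cast_mul, Int.cast_ofNat, hk]
      rw [← mul_div_assoc]
      congr 1 <;> ring
    · simp [jj, hk]; ring
  unfold RR
  rw [div_pow, div_pow, e1, e2, mul_div_mul_left _ _ (pow_ne_zero _ hj)]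

theorem RR_fricke {M : Matrix (Fin 2) (Fin 2) ℤ} (hM : IsAL 11 M) {z : ℂ} (hz : 0 < z.im) :
    RR (mob M z) = (11 ^ 12 * RR z)⁻¹ := by
  obtain ⟨x, hx⟩ := hM.d0
  obtain ⟨w, hw⟩ := hM.d1
  obtain ⟨t, ht⟩ := hM.d11
  have hdet := hM.det
  have hp : 0 < M.det := by rw [hdet]; norm_num
  have hj := jj_ne_zero hp hz
  have hd0 : 11 * x * w - M 0 1 * t = 1 := by
    rw [Matrix.det_fin_two, hx, hw, ht] at hdet
    linarith
  have hjj : jj M z = 11 * (t * z + w) := by simp [jj, ht, hw]; ring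
  have hj' : (t : ℂ) * z + w ≠ 0 := by
    intro h0; rw [hjj, h0] at hj; simp at hj
  have e1 : η (mob M z) ^ 24 = (11 * (t * z + w)) ^ 12 * η (11 * z) ^ 24 := by
    have hd : (!![x, M 0 1; t, 11 * w] : Matrix (Fin 2) (Fin 2) ℤ).det = 1 := by
      rw [Matrix.det_fin_two_of]; linarith
    refine eta24_eq hd (im11 hz) ?_ ?_
    · simp only [mob, Matrix.of_apply, Matrix.cons_val', Matrix.cons_val_zero,
        Matrix.cons_val_one, Matrix.cons_val_fin_one, Int.cast_mul, Int.cast_ofNat, hx, hw, ht]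
      congr 1 <;> ring
    · simp [jj]; ring
  have e2 : η (11 * mob M z) ^ 24 = (t * z + w) ^ 12 * η z ^ 24 := by
    have hd : (!![11 * x, M 0 1; t, w] : Matrix (Fin 2) (Fin 2) ℤ).det = 1 := by
      rw [Matrix.det_fin_two_of]; linarith
    refine eta24_eq hd hz ?_ ?_
    · have : mob M z = (11 * x * z + M 0 1) / (11 * (t * z + w)) := by
        rw [← hjj]
        simp only [mob, jj, hx, Int.cast_mul, Int.cast_ofNat]
      rw [this]
      simp only [mob, Matrix.of_apply, Matrix.cons_val', Matrix.cons_val_zero,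
        Matrix.cons_val_one, Matrix.cons_val_fin_one, Int.cast_mul, Int.cast_ofNat]
      field_simp
    · simp [jj]
  have n1 : η z ≠ 0 := ModularForm.eta_ne_zero hz
  have n2 : η (11 * z) ≠ 0 := ModularForm.eta_ne_zero (im11 hz)
  unfold RR
  rw [div_pow, div_pow, e1, e2]
  field_simp

end X11
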