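import Pool.Agent.MP_9ab903_nt.MF.Q
import Pool.Agent.MP_9c45e8_nt.C2

/-!
[NC11] The functions `w = E*/f - 12/5` and `v = Dw/f` and the equation
`v² = w⁴ - 4w³ - 88w² - 300w - 304` of `X₀(11)`.
-/

open Complex Filter
open UpperHalfPlane hiding I
open scoped MatrixGroups Real ModularForm Topology

noncomputable section

namespace X11

open MP9c45e8 (mob jj jj_ne_zero mob_im mob_im_pos jj_mul mob_mul
  isPreconnected_H isOpen_H differentiableAt_mob mob_smul jj_smul ne_zero_of_im mob_one jj_one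
  det_upper sub_div_im qq AA norm_qq qq_norm_lt qq_ne_zero qq_mul exists_qq eta_eq AA_ne_zero
  norm_pow_lt differentiableOn_AA differentiableOn_AA_pow AA_conj analyticAt_AA analyticAt_AA_pow
  exists_of_bound hasDerivAt_qq two_pi_I_ne hasDerivAt_mobC qq_small eventually_qq)

/-- The Eisenstein series `E*(z) = (11 E₂(11z) - E₂(z))/10`, as `R'/(20πi R)`. -/
def EE (z : ℂ) : ℂ := deriv RR z / (20 * π * I * RR z)

/-- `w = E*/f - 12/5` -/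
def ww (z : ℂ) : ℂ := EE z / etaF z - 12 / 5

/-- `v = Dw/f` -/
def vv (z : ℂ) : ℂ := deriv ww z / (2 * π * I * etaF z)

theorem etaF_mob_eq {Q : ℤ} {M : Matrix (Fin 2) (Fin 2) ℤ} (hQ : QQ Q) (hM : IsAL Q M)
    {z : ℂ} (hz : 0 < z.im) : etaF (mob M z) = epsQ Q * jj M z ^ 2 * etaF z / M.det := by
  have hdet : (M.det : ℂ) ≠ 0 := by exact_mod_cast (hM.pos hQ).ne'
  rw [eq_div_iff hdet, hM.tf hQ z hz]

theorem deriv_RR_mob {M : Matrix (Fin 2) (Fin 2) ℤ} (hM : 0 < M.det) {z : ℂ}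
    (hz : 0 < z.im) : deriv (fun z ↦ RR (mob M z)) z =
      deriv RR (mob M z) * (M.det / jj M z ^ 2) :=
  (HasDerivAt.comp z (differentiableAt_RR (mob_im_pos hM hz)).hasDerivAt
    (hasDerivAt_mobC hM hz)).deriv

theorem twenty_pi_I_ne : (20 * π * I : ℂ) ≠ 0 := by
  simp [Real.pi_ne_zero, I_ne_zero]

theorem EE_mob_eq {Q : ℤ} {M : Matrix (Fin 2) (Fin 2) ℤ} (hQ : QQ Q) (hM : IsAL Q M)
    {z : ℂ} (hz : 0 < z.im) : EE (mob M z) = epsQ Q * jj M z ^ 2 * EE z / M.det := by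
  have hp := hM.pos hQ
  have hdet : (M.det : ℂ) ≠ 0 := by exact_mod_cast hp.ne'
  have hj := jj_ne_zero hp hz
  have hR := RR_ne_zero hz
  have h20 := twenty_pi_I_ne
  have hd := deriv_RR_mob hp hz
  rcases hQ with rfl | rfl
  · have hcongr : (fun z ↦ RR (mob M z)) =ᶠ[𝓝 z] RR := by
      filter_upwards [isOpen_H.mem_nhds hz] with u hu using RR_Gamma0 hM hu
    rw [hcongr.deriv_eq] at hd
    unfold EE
    rw [RR_Gamma0 hM hz, hd]
    generalize deriv RR (mob M z) = D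
    generalize (20 * π * I : ℂ) = c at *
    simp only [epsQ, if_true, Int.cast_one]
    field_simp
  · have hcongr : (fun z ↦ RR (mob M z)) =ᶠ[𝓝 z] fun z ↦ (11 ^ 12 * RR z)⁻¹ := by
      filter_upwards [isOpen_H.mem_nhds hz] with u hu using RR_fricke hM hu
    have hd2 : deriv (fun z ↦ (11 ^ 12 * RR z)⁻¹) z = -(11 ^ 12 * deriv RR z) /
        (11 ^ 12 * RR z) ^ 2 :=
      (((differentiableAt_RR hz).hasDerivAt.const_mul (11 ^ 12)).inv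
        (mul_ne_zero (by norm_num) hR)).deriv
    rw [hcongr.deriv_eq, hd2] at hd
    have hd3 : deriv RR (mob M z) = -(11 ^ 12 * deriv RR z) /
        (11 ^ 12 * RR z) ^ 2 * jj M z ^ 2 / M.det := by
      rw [hd]
      field_simp
    unfold EE
    rw [RR_fricke hM hz, hd3]
    generalize deriv RR z = D
    generalize (20 * π * I : ℂ) = c at *
    have he : ((epsQ 11 : ℤ) : ℂ) = -1 := by norm_num [epsQ]
    rw [he]
    field_simp

theorem ww_AL {Q : ℤ} {M : Matrix (Fin 2) (Fin 2) ℤ} (hQ : QQ Q) (hM : IsAL Q M)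
    {z : ℂ} (hz : 0 < z.im) : ww (mob M z) = ww z := by
  have hp := hM.pos hQ
  have hdet : (M.det : ℂ) ≠ 0 := by exact_mod_cast hp.ne'
  have hj := jj_ne_zero hp hz
  have hf := etaF_ne_zero hz
  have he := epsQ_ne_zero Q
  unfold ww
  rw [EE_mob_eq hQ hM hz, etaF_mob_eq hQ hM hz]
  congr 1
  field_simp

theorem differentiableOn_EE : DifferentiableOn ℂ EE {z | 0 < z.im} := by
  unfold EE
  refine (differentiableOn_RR.deriv isOpen_H).div (differentiableOn_RR.const_mul _) ?_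
  intro z hz
  exact mul_ne_zero twenty_pi_I_ne (RR_ne_zero hz)

theorem differentiableOn_ww : DifferentiableOn ℂ ww {z | 0 < z.im} := by
  unfold ww
  exact (differentiableOn_EE.div differentiableOn_etaF fun z hz ↦ etaF_ne_zero hz).sub_const _

theorem differentiableAt_ww {z : ℂ} (hz : 0 < z.im) : DifferentiableAt ℂ ww z :=
  differentiableOn_ww.differentiableAt (isOpen_H.mem_nhds hz)

theorem differentiableOn_vv : DifferentiableOn ℂ vv {z | 0 < z.im} := by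
  unfold vv
  refine (differentiableOn_ww.deriv isOpen_H).div (differentiableOn_etaF.const_mul _) ?_
  intro z hz
  exact mul_ne_zero two_pi_I_ne (etaF_ne_zero hz)

theorem vv_AL {Q : ℤ} {M : Matrix (Fin 2) (Fin 2) ℤ} (hQ : QQ Q) (hM : IsAL Q M)
    {z : ℂ} (hz : 0 < z.im) : vv (mob M z) = epsQ Q * vv z := by
  have hp := hM.pos hQ
  have hsq := epsQ_sq Q
  have he := epsQ_ne_zero Q
  have hdet : (M.det : ℂ) ≠ 0 := by exact_mod_cast hp.ne'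
  have hd : deriv (fun z ↦ ww (mob M z)) z = deriv ww (mob M z) * (M.det / jj M z ^ 2) :=
    (HasDerivAt.comp z (differentiableAt_ww (mob_im_pos hp hz)).hasDerivAt
      (hasDerivAt_mobC hp hz)).deriv
  have hcongr : (fun z ↦ ww (mob M z)) =ᶠ[𝓝 z] ww := by
    filter_upwards [isOpen_H.mem_nhds hz] with u hu using ww_AL hQ hM hu
  rw [hcongr.deriv_eq] at hd
  have hj := jj_ne_zero hp hz
  have hf := etaF_ne_zero hz
  have h2 := two_pi_I_ne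
  unfold vv
  rw [etaF_mob_eq hQ hM hz, hd]
  generalize deriv ww (mob M z) = D
  generalize (2 * π * I : ℂ) = c at *
  field_simp
  rw [hsq, mul_one]

/-- `P = v² - (w⁴ - 4w³ - 88w² - 300w - 304)` -/
def PP (z : ℂ) : ℂ :=
  vv z ^ 2 - (ww z ^ 4 - 4 * ww z ^ 3 - 88 * ww z ^ 2 - 300 * ww z - 304)

theorem PP_AL {Q : ℤ} {M : Matrix (Fin 2) (Fin 2) ℤ} (hQ : QQ Q) (hM : IsAL Q M)
    {z : ℂ} (hz : 0 < z.im) : PP (mob M z) = PP z := by
  unfold PP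
  rw [ww_AL hQ hM hz, vv_AL hQ hM hz, mul_pow, epsQ_sq, one_mul]

theorem differentiableOn_PP : DifferentiableOn ℂ PP {z | 0 < z.im} := by
  have h1 := differentiableOn_ww
  have h2 := differentiableOn_vv
  unfold PP
  exact (h2.pow 2).sub (((((h1.pow 4).sub ((h1.pow 3).const_mul 4)).sub
    ((h1.pow 2).const_mul 88)).sub (h1.const_mul 300)).sub_const _)

/-! ### In terms of `q` -/

/-- numerator of `w`: `w = Wn/(q φ)` -/
def Wn (q : ℂ) : ℂ := ee q - 12 / 5 * (q * phi q)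

/-- numerator of `v`: `v = Vn/(q² φ³)` -/
def Vn (q : ℂ) : ℂ := q * deriv Wn q * phi q - Wn q * phi q - q * Wn q * deriv phi q

theorem analyticAt_phi {q : ℂ} (h1 : ‖q‖ < 1) : AnalyticAt ℂ phi q :=
  differentiableOn_phi.analyticAt (Metric.isOpen_ball.mem_nhds (by simpa using h1))

theorem differentiableAt_phi {q : ℂ} (hq : ‖q‖ < 1) : DifferentiableAt ℂ phi q :=
  (analyticAt_phi hq).differentiableAt

theorem analyticAt_Wn {q : ℂ} (h1 : ‖q‖ < 1) : AnalyticAt ℂ Wn q := by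
  have h2 := analyticAt_phi h1
  have h3 := analyticAt_ee h1
  unfold Wn
  fun_prop

theorem EE_eq {z : ℂ} (hz : 0 < z.im) : EE z = ee (qq z) := by
  have hq := qq_norm_lt hz
  have hq0 := qq_ne_zero z
  have hA := AA_ne_zero hq
  have hq11 := norm_pow_lt hq (show (11 : ℕ) ≠ 0 by norm_num)
  have hA11 := AA_ne_zero hq11
  have dA := (MP9c45e8.differentiableOn_AA.differentiableAt
    (Metric.isOpen_ball.mem_nhds (by simpa using hq))).hasDerivAt (x := qq z)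
  have dA11 := (MP9c45e8.differentiableOn_AA.differentiableAt
    (Metric.isOpen_ball.mem_nhds (by simpa using hq11))).hasDerivAt (x := qq z ^ 11)
  have d1 : HasDerivAt (fun z ↦ AA (qq z)) (deriv AA (qq z) * (2 * π * I * qq z)) z :=
    HasDerivAt.comp z dA (hasDerivAt_qq z)
  have d0 : HasDerivAt (fun z ↦ qq z ^ 11) (11 * qq z ^ 10 * (2 * π * I * qq z)) z := by
    have := (hasDerivAt_qq z).pow 11
    refine this.congr_deriv ?_
    simp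
  have d2 : HasDerivAt (fun z ↦ AA (qq z ^ 11))
      (deriv AA (qq z ^ 11) * (11 * qq z ^ 10 * (2 * π * I * qq z))) z :=
    HasDerivAt.comp (h₂ := AA) (h := fun z ↦ qq z ^ 11) z dA11 d0
  have d3 := (d2.div d1 hA).pow 24
  have d4 := ((hasDerivAt_qq z).pow 10).mul d3
  have h2 : RR =ᶠ[𝓝 z] fun z ↦ qq z ^ 10 * (AA (qq z ^ 11) / AA (qq z)) ^ 24 := by
    filter_upwards [isOpen_H.mem_nhds hz] with u hu using RR_eq hu
  have d5 : deriv RR z = _ := h2.deriv_eq.trans d4.deriv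
  have hR := RR_eq hz
  rw [rho] at hR
  unfold EE ee LA
  rw [d5, hR]
  simp only [Nat.cast_ofNat, Nat.add_one_sub_one, Pi.div_apply, Pi.pow_apply]
  have hpi : (π : ℂ) ≠ 0 := by exact_mod_cast Real.pi_ne_zero
  have hI := I_ne_zero
  generalize deriv AA (qq z ^ 11) = D1
  generalize deriv AA (qq z) = D2
  generalize AA (qq z ^ 11) = x11 at *
  generalize AA (qq z) = x1 at *
  generalize qq z = q at *
  field_simp
  ring

theorem ww_eq {z : ℂ} (hz : 0 < z.im) : ww z = Wn (qq z) / (qq z * phi (qq z)) := by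
  have hq := qq_norm_lt hz
  have hq0 := qq_ne_zero z
  have hp := phi_ne_zero hq
  rw [ww, EE_eq hz, etaF_eq, Wn]
  field_simp

theorem vv_eq {z : ℂ} (hz : 0 < z.im) : vv z = Vn (qq z) / (qq z ^ 2 * phi (qq z) ^ 3) := by
  have hq := qq_norm_lt hz
  have hq0 := qq_ne_zero z
  have hp := phi_ne_zero hq
  have d1 := (analyticAt_Wn hq).differentiableAt.hasDerivAt
  have d2 := (differentiableAt_phi hq).hasDerivAt
  have h1 := HasDerivAt.comp z d1 (hasDerivAt_qq z)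
  have h2 := HasDerivAt.comp z d2 (hasDerivAt_qq z)
  have h3 := h1.div ((hasDerivAt_qq z).mul h2) (mul_ne_zero hq0 hp)
  have h4 : ww =ᶠ[𝓝 z] fun z ↦ Wn (qq z) / (qq z * phi (qq z)) := by
    filter_upwards [isOpen_H.mem_nhds hz] with u hu using ww_eq hu
  have h5 : deriv ww z = _ := h4.deriv_eq.trans h3.deriv
  rw [vv, h5, etaF_eq, Vn]
  simp only [Function.comp_apply, Pi.mul_apply]
  have hpi := two_pi_I_ne
  generalize (2 * π * I : ℂ) = c at *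
  generalize deriv Wn (qq z) = D1
  generalize deriv phi (qq z) = D2
  field_simp
  ring

/-- numerator -/
def M2 (q : ℂ) : ℂ := Vn q * Vn q - phi q * phi q *
  (Wn q ^ 4 - 4 * Wn q ^ 3 * (q * phi q) - 88 * Wn q ^ 2 * (q * phi q) ^ 2
    - 300 * Wn q * (q * phi q) ^ 3 - 304 * (q * phi q) ^ 4)

theorem PP_eq {z : ℂ} (hz : 0 < z.im) :
    PP z = M2 (qq z) / (qq z ^ 4 * phi (qq z) ^ 6) := by
  have hq := qq_norm_lt hz
  have hq0 := qq_ne_zero z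
  have hp := phi_ne_zero hq
  rw [PP, ww_eq hz, vv_eq hz, M2]
  field_simp

theorem phi_Wn_M2 : ∃ m : ℂ → ℂ, ContinuousAt m 0 ∧ ∀ᶠ q in 𝓝 (0 : ℂ), M2 q = q ^ 5 * m q := by
  obtain ⟨r, hr, h⟩ := phi_expansion
  obtain ⟨s, hs, h'⟩ := ee_expansion
  -- expansion of `Wn`
  set t : ℂ → ℂ := fun q ↦ s q - 12 / 5 * (1 + q * r q) with ht
  have hta : AnalyticAt ℂ t 0 := by rw [ht]; fun_prop
  have hW : ∀ᶠ q in 𝓝 (0 : ℂ), Wn q = 1 + 12 * q ^ 2 + 12 * q ^ 3 + 12 * q ^ 4 + q ^ 5 * t q := by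
    filter_upwards [h, h'] with q e e'
    rw [Wn, e, e', ht]
    ring
  have hW' : ∀ᶠ q in 𝓝 (0 : ℂ), deriv Wn q = 24 * q + 36 * q ^ 2 + 48 * q ^ 3 +
      (5 * q ^ 4 * t q + q ^ 5 * deriv t q) := by
    filter_upwards [hW.eventually_nhds, hta.eventually_analyticAt] with q e hrq
    rw [Filter.EventuallyEq.deriv_eq e]
    have h1 := ((((hasDerivAt_const q (1 : ℂ)).add ((hasDerivAt_pow 2 q).const_mul 12)).add
      ((hasDerivAt_pow 3 q).const_mul 12)).add ((hasDerivAt_pow 4 q).const_mul 12)).add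
      ((hasDerivAt_pow 5 q).mul hrq.differentiableAt.hasDerivAt)
    refine (h1.congr_deriv ?_).deriv
    simp
    ring
  have hp' : ∀ᶠ q in 𝓝 (0 : ℂ), deriv phi q = -2 - 2 * q + 6 * q ^ 2 + 4 * q ^ 3 +
      (5 * q ^ 4 * r q + q ^ 5 * deriv r q) := by
    filter_upwards [h.eventually_nhds, hr.eventually_analyticAt] with q e hrq
    rw [Filter.EventuallyEq.deriv_eq e]
    have h1 := (((((hasDerivAt_const q (1 : ℂ)).sub ((hasDerivAt_id q).const_mul 2)).sub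
      (hasDerivAt_pow 2 q)).add ((hasDerivAt_pow 3 q).const_mul 2)).add (hasDerivAt_pow 4 q)).add
      ((hasDerivAt_pow 5 q).mul hrq.differentiableAt.hasDerivAt)
    refine (h1.congr_deriv ?_).deriv
    simp
    ring
  have hcr := hr.continuousAt
  have hct := hta.continuousAt
  have hcr' := hr.deriv.continuousAt
  have hct' := hta.deriv.continuousAt
  have hr2 : ∃ r2 : ℂ → ℂ, ContinuousAt r2 0 ∧ ∀ᶠ q in 𝓝 (0 : ℂ),
      q * deriv phi q = -2 * q - 2 * q ^ 2 + 6 * q ^ 3 + 4 * q ^ 4 + q ^ 5 * r2 q := by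
    refine ⟨fun q ↦ 5 * r q + q * deriv r q, by fun_prop, ?_⟩
    filter_upwards [hp'] with q e
    rw [e]; ring
  have ht2 : ∃ t2 : ℂ → ℂ, ContinuousAt t2 0 ∧ ∀ᶠ q in 𝓝 (0 : ℂ),
      q * deriv Wn q = 24 * q ^ 2 + 36 * q ^ 3 + 48 * q ^ 4 + q ^ 5 * t2 q := by
    refine ⟨fun q ↦ 5 * t q + q * deriv t q, by fun_prop, ?_⟩
    filter_upwards [hW'] with q e
    rw [e]; ring
  obtain ⟨r2, hcr2, hr2⟩ := hr2
  obtain ⟨t2, hct2, ht2⟩ := ht2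
  -- `Vn`
  have hV : ∃ v : ℂ → ℂ, ContinuousAt v 0 ∧ ∀ᶠ q in 𝓝 (0 : ℂ),
      Vn q = -1 + 4 * q + 15 * q ^ 2 + 16 * q ^ 3 + 19 * q ^ 4 + q ^ 5 * v q := by
    refine ⟨fun q ↦ (-96 - 72 * q - 24 * q ^ 2 - 12 * q ^ 3) +
      (24 * q ^ 2 + 36 * q ^ 3 + 48 * q ^ 4) * r q + t2 q *
        (1 - 2 * q - q ^ 2 + 2 * q ^ 3 + q ^ 4 + q ^ 5 * r q) -
      ((1 + 12 * q ^ 2 + 12 * q ^ 3 + 12 * q ^ 4) * r q + t q *
        (1 - 2 * q - q ^ 2 + 2 * q ^ 3 + q ^ 4 + q ^ 5 * r q)) -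
      ((1 + 12 * q ^ 2 + 12 * q ^ 3 + 12 * q ^ 4) * r2 q + t q *
        (-2 * q - 2 * q ^ 2 + 6 * q ^ 3 + 4 * q ^ 4 + q ^ 5 * r2 q)), by fun_prop, ?_⟩
    filter_upwards [h, hW, hr2, ht2] with q e1 e2 e3 e4
    have : Vn q = (q * deriv Wn q) * phi q - Wn q * phi q - Wn q * (q * deriv phi q) := by
      rw [Vn]; ring
    rw [this, e1, e2, e3, e4]
    ring
  obtain ⟨v, hcv, hV⟩ := hV
  have hP2 : ∃ m : ℂ → ℂ, ContinuousAt m 0 ∧ ∀ᶠ q in 𝓝 (0 : ℂ),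
      phi q ^ 2 = 1 - 4 * q + 2 * q ^ 2 + 8 * q ^ 3 - 5 * q ^ 4 + q ^ 5 * m q := by
    refine ⟨fun q ↦ (-8 + 2 * q + 4 * q ^ 2 + q ^ 3) +
      2 * (1 - 2 * q - q ^ 2 + 2 * q ^ 3 + q ^ 4) * r q + q ^ 5 * r q ^ 2, by fun_prop, ?_⟩
    filter_upwards [h] with q e1
    rw [e1]
    ring
  obtain ⟨p2, hcp2, hP2⟩ := hP2
  have hP3 : ∃ m : ℂ → ℂ, ContinuousAt m 0 ∧ ∀ᶠ q in 𝓝 (0 : ℂ),
      phi q ^ 3 = 1 - 6 * q + 9 * q ^ 2 + 10 * q ^ 3 - 30 * q ^ 4 + q ^ 5 * m q := by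
    refine ⟨fun q ↦ (2 + 23 * q - 2 * q ^ 2 - 5 * q ^ 3) +
      (1 - 4 * q + 2 * q ^ 2 + 8 * q ^ 3 - 5 * q ^ 4) * r q + p2 q *
      (1 - 2 * q - q ^ 2 + 2 * q ^ 3 + q ^ 4 + q ^ 5 * r q), by fun_prop, ?_⟩
    filter_upwards [h, hP2] with q e1 e2
    rw [show phi q ^ 3 = phi q ^ 2 * phi q by ring, e2, e1]
    ring
  obtain ⟨p3, hcp3, hP3⟩ := hP3
  have hP4 : ∃ m : ℂ → ℂ, ContinuousAt m 0 ∧ ∀ᶠ q in 𝓝 (0 : ℂ),
      phi q ^ 4 = 1 - 8 * q + 20 * q ^ 2 - 70 * q ^ 4 + q ^ 5 * m q := by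
    refine ⟨fun q ↦ (72 + 44 * q - 80 * q ^ 2 + 25 * q ^ 3) +
      2 * (1 - 4 * q + 2 * q ^ 2 + 8 * q ^ 3 - 5 * q ^ 4) * p2 q + q ^ 5 * p2 q ^ 2,
      by fun_prop, ?_⟩
    filter_upwards [hP2] with q e2
    rw [show phi q ^ 4 = (phi q ^ 2) ^ 2 by ring, e2]
    ring
  obtain ⟨p4, hcp4, hP4⟩ := hP4
  have hW2 : ∃ m : ℂ → ℂ, ContinuousAt m 0 ∧ ∀ᶠ q in 𝓝 (0 : ℂ),
      Wn q ^ 2 = 1 + 24 * q ^ 2 + 24 * q ^ 3 + 168 * q ^ 4 + q ^ 5 * m q := by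
    refine ⟨fun q ↦ (288 + 432 * q + 288 * q ^ 2 + 144 * q ^ 3) +
      2 * (1 + 12 * q ^ 2 + 12 * q ^ 3 + 12 * q ^ 4) * t q + q ^ 5 * t q ^ 2, by fun_prop, ?_⟩
    filter_upwards [hW] with q e1
    rw [e1]
    ring
  obtain ⟨w2, hcw2, hW2⟩ := hW2
  have hW3 : ∃ m : ℂ → ℂ, ContinuousAt m 0 ∧ ∀ᶠ q in 𝓝 (0 : ℂ),
      Wn q ^ 3 = 1 + 36 * q ^ 2 + 36 * q ^ 3 + 468 * q ^ 4 + q ^ 5 * m q := by
    refine ⟨fun q ↦ (576 + 2592 * q + 2304 * q ^ 2 + 2016 * q ^ 3) +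
      (1 + 24 * q ^ 2 + 24 * q ^ 3 + 168 * q ^ 4) * t q + w2 q *
      (1 + 12 * q ^ 2 + 12 * q ^ 3 + 12 * q ^ 4 + q ^ 5 * t q), by fun_prop, ?_⟩
    filter_upwards [hW, hW2] with q e1 e2
    rw [show Wn q ^ 3 = Wn q ^ 2 * Wn q by ring, e2, e1]
    ring
  obtain ⟨w3, hcw3, hW3⟩ := hW3
  have hW4 : ∃ m : ℂ → ℂ, ContinuousAt m 0 ∧ ∀ᶠ q in 𝓝 (0 : ℂ),
      Wn q ^ 4 = 1 + 48 * q ^ 2 + 48 * q ^ 3 + 912 * q ^ 4 + q ^ 5 * m q := by
    refine ⟨fun q ↦ (1152 + 8640 * q + 8064 * q ^ 2 + 28224 * q ^ 3) +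
      2 * (1 + 24 * q ^ 2 + 24 * q ^ 3 + 168 * q ^ 4) * w2 q + q ^ 5 * w2 q ^ 2,
      by fun_prop, ?_⟩
    filter_upwards [hW2] with q e2
    rw [show Wn q ^ 4 = (Wn q ^ 2) ^ 2 by ring, e2]
    ring
  obtain ⟨w4, hcw4, hW4⟩ := hW4
  -- the quartic
  have hX : ∃ m : ℂ → ℂ, ContinuousAt m 0 ∧ ∀ᶠ q in 𝓝 (0 : ℂ),
      Wn q ^ 4 - 4 * Wn q ^ 3 * (q * phi q) - 88 * Wn q ^ 2 * (q * phi q) ^ 2
        - 300 * Wn q * (q * phi q) ^ 3 - 304 * (q * phi q) ^ 4 =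
      1 - 4 * q - 32 * q ^ 2 - 40 * q ^ 3 + 256 * q ^ 4 + q ^ 5 * m q := by
    refine ⟨fun q ↦ (320 + 2400 * q + 34056 * q ^ 2 - 65312 * q ^ 3 - 69984 * q ^ 4
        + 145920 * q ^ 5 + 108000 * q ^ 6) + w4 q
      - 4 * q * ((1 + 36 * q ^ 2 + 36 * q ^ 3 + 468 * q ^ 4) * r q + w3 q *
          (1 - 2 * q - q ^ 2 + 2 * q ^ 3 + q ^ 4 + q ^ 5 * r q))
      - 88 * q ^ 2 * ((1 + 24 * q ^ 2 + 24 * q ^ 3 + 168 * q ^ 4) * p2 q + w2 q *
          (1 - 4 * q + 2 * q ^ 2 + 8 * q ^ 3 - 5 * q ^ 4 + q ^ 5 * p2 q))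
      - 300 * q ^ 3 * ((1 + 12 * q ^ 2 + 12 * q ^ 3 + 12 * q ^ 4) * p3 q + t q *
          (1 - 6 * q + 9 * q ^ 2 + 10 * q ^ 3 - 30 * q ^ 4 + q ^ 5 * p3 q))
      - 304 * q ^ 4 * p4 q, by fun_prop, ?_⟩
    filter_upwards [h, hP2, hP3, hP4, hW, hW2, hW3, hW4] with q e1 e2 e3 e4 f1 f2 f3 f4
    rw [show Wn q ^ 4 - 4 * Wn q ^ 3 * (q * phi q) - 88 * Wn q ^ 2 * (q * phi q) ^ 2
        - 300 * Wn q * (q * phi q) ^ 3 - 304 * (q * phi q) ^ 4 =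
      Wn q ^ 4 - 4 * q * (Wn q ^ 3 * phi q) - 88 * q ^ 2 * (Wn q ^ 2 * phi q ^ 2)
        - 300 * q ^ 3 * (Wn q * phi q ^ 3) - 304 * q ^ 4 * phi q ^ 4 by ring,
      f4, f3, f2, e2, e3, e4, e1, f1]
    ring
  obtain ⟨x, hcx, hX⟩ := hX
  refine ⟨fun q ↦ (632 + 826 * q + 608 * q ^ 2 + 361 * q ^ 3) +
      2 * (-1 + 4 * q + 15 * q ^ 2 + 16 * q ^ 3 + 19 * q ^ 4) * v q + q ^ 5 * v q ^ 2 -
      ((-1340 + 352 * q + 2248 * q ^ 2 - 1280 * q ^ 3) +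
        (1 - 4 * q + 2 * q ^ 2 + 8 * q ^ 3 - 5 * q ^ 4) * x q + p2 q *
        (1 - 4 * q - 32 * q ^ 2 - 40 * q ^ 3 + 256 * q ^ 4 + q ^ 5 * x q)), by fun_prop, ?_⟩
  filter_upwards [hV, hP2, hX] with q e1 e2 e3
  rw [M2, e3, show phi q * phi q = phi q ^ 2 by ring, e2, e1]
  ring

theorem PP_small (ε : ℝ) (hε : 0 < ε) : ∃ A : ℝ, ∀ z : ℂ, 0 < z.im → A ≤ z.im → ‖PP z‖ ≤ ε := by
  obtain ⟨m, hm, h⟩ := phi_Wn_M2
  have c1 : ContinuousAt phi 0 := (differentiableAt_phi (by simp)).continuousAt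
  have n1 : phi 0 ≠ 0 := phi_ne_zero (by simp)
  have hg : ContinuousAt (fun q ↦ q * m q / phi q ^ 6) 0 :=
    (continuousAt_id.mul hm).div (c1.pow 6) (pow_ne_zero 6 n1)
  have hg0 : Tendsto (fun q ↦ q * m q / phi q ^ 6) (𝓝 0) (𝓝 0) := by
    have := hg.tendsto
    simpa using this
  have h3 : ∀ᶠ q in 𝓝 (0 : ℂ), ‖q * m q / phi q ^ 6‖ < ε :=
    hg0.norm.eventually (by simpa using gt_mem_nhds hε)
  have h4 : ∀ᶠ q in 𝓝[≠] (0 : ℂ), ‖M2 q / (q ^ 4 * phi q ^ 6)‖ < ε := by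
    filter_upwards [h.filter_mono nhdsWithin_le_nhds, h3.filter_mono nhdsWithin_le_nhds,
      self_mem_nhdsWithin] with q e1 e2 hq
    have hq : q ≠ 0 := hq
    have : M2 q / (q ^ 4 * phi q ^ 6) = q * m q / phi q ^ 6 := by
      rw [e1]
      rw [show q ^ 5 * m q = q ^ 4 * (q * m q) by ring,
        mul_div_mul_left _ _ (pow_ne_zero 4 hq)]
    rwa [this]
  obtain ⟨A, hA⟩ := eventually_qq h4
  refine ⟨A, fun z hz hAz ↦ ?_⟩
  rw [PP_eq hz]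
  exact (hA z hAz).le

theorem PP_zero {z : ℂ} (hz : 0 < z.im) : PP z = 0 := by
  obtain ⟨c, hc⟩ := const_of_AL PP differentiableOn_PP
    (fun M hM h11 z hz ↦ PP_AL (Q := 1) (Or.inl rfl) ⟨hM, one_dvd _, one_dvd _, h11⟩ hz)
    (fun Q M hQ hM ↦ by
      obtain ⟨A, hA⟩ := PP_small 1 one_pos
      exact ⟨A, 1, fun z hz hAz ↦ by rw [PP_AL hQ hM hz]; exact hA z hz hAz⟩)
  have hc0 : c = 0 := by
    by_contra hne
    have hpos : 0 < ‖c‖ / 2 := by positivity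
    obtain ⟨A, hA⟩ := PP_small _ hpos
    have h1 : 0 < ((max A 1 : ℝ) * I : ℂ).im := by
      simp
    have h2 := hA _ h1 (by simp)
    rw [hc _ h1] at h2
    have : 0 < ‖c‖ := norm_pos_iff.mpr hne
    linarith
  rw [hc z hz, hc0]

/-- The equation of `X₀(11)`. -/
theorem vv_sq {z : ℂ} (hz : 0 < z.im) :
    vv z ^ 2 = ww z ^ 4 - 4 * ww z ^ 3 - 88 * ww z ^ 2 - 300 * ww z - 304 :=
  sub_eq_zero.mp (PP_zero hz)

end X11
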