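import Pool.Agent.MP_9ab903_nt.MF.C
import Pool.Agent.MP_9c45e8_nt.F2

/-!
[NC11] Uniformisation: `℘(FF z) = x(z) - 1/3`, `℘'(FF z) = 2 y(z) + 1` where
`x = (w² - 2w - 14 - v)/2`, `y = 60 - (w - 1)(x - 16)`, `y² + y = x³ - x² - 10x - 20`.
-/

open Complex Filter
open UpperHalfPlane hiding I
open PeriodPair
open scoped MatrixGroups Real ModularForm Topology

noncomputable section

namespace X11

open MP9c45e8 (mob jj jj_ne_zero mob_im mob_im_pos jj_mul mob_mul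
  isPreconnected_H isOpen_H differentiableAt_mob mob_smul jj_smul ne_zero_of_im mob_one jj_one
  det_upper sub_div_im qq AA norm_qq qq_norm_lt qq_ne_zero qq_mul exists_qq eta_eq AA_ne_zero
  norm_pow_lt differentiableOn_AA differentiableOn_AA_pow AA_conj analyticAt_AA analyticAt_AA_pow
  exists_of_bound hasDerivAt_qq two_pi_I_ne hasDerivAt_mobC qq_small eventually_qq
  weierstrassP_unique weierstrassP_comp_eq)

/-- the `x`-coordinate of the modular parametrisation -/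
def xx (z : ℂ) : ℂ := (ww z ^ 2 - 2 * ww z - 14 - vv z) / 2

/-- the `y`-coordinate of the modular parametrisation -/
def yy (z : ℂ) : ℂ := 60 - (ww z - 1) * (xx z - 16)

theorem two_yy_add_one (z : ℂ) :
    2 * yy z + 1 = (ww z - 1) * vv z - (ww z ^ 3 - 3 * ww z ^ 2 - 44 * ww z - 75) := by
  rw [yy, xx]; ring

/-- The modular parametrisation lands on 11a1. -/
theorem yy_eq {z : ℂ} (hz : 0 < z.im) :
    yy z ^ 2 + yy z = xx z ^ 3 - xx z ^ 2 - 10 * xx z - 20 := by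
  have h := vv_sq hz
  rw [yy, xx]
  linear_combination (vv z / 8 - (ww z ^ 2 - 2 * ww z - 46) / 8) * h

/-- `w` as a function of `q` -/
def wq (q : ℂ) : ℂ := Wn q / (q * phi q)
/-- `v` as a function of `q` -/
def vq (q : ℂ) : ℂ := Vn q / (q ^ 2 * phi q ^ 3)
/-- `X = x - 1/3` as a function of `q` -/
def Xq (q : ℂ) : ℂ := (wq q ^ 2 - 2 * wq q - 14 - vq q) / 2 - 1 / 3

theorem xx_eq {z : ℂ} (hz : 0 < z.im) : xx z - 1 / 3 = Xq (qq z) := by
  rw [xx, Xq, ww_eq hz, vv_eq hz, wq, vq]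

theorem vq_sq {q : ℂ} (h0 : q ≠ 0) (h1 : ‖q‖ < 1) :
    vq q ^ 2 = wq q ^ 4 - 4 * wq q ^ 3 - 88 * wq q ^ 2 - 300 * wq q - 304 := by
  obtain ⟨z, hz, rfl⟩ := exists_qq h0 h1
  have := vv_sq hz
  rw [ww_eq hz, vv_eq hz] at this
  exact this

theorem hasDerivAt_wq {q : ℂ} (h0 : q ≠ 0) (h1 : ‖q‖ < 1) :
    HasDerivAt wq (vq q * phi q) q := by
  have hp := phi_ne_zero h1
  have h := (analyticAt_Wn h1).differentiableAt.hasDerivAt.div
    ((hasDerivAt_id q).mul (differentiableAt_phi h1).hasDerivAt) (mul_ne_zero h0 hp)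
  refine h.congr_deriv ?_
  rw [vq, Vn]
  simp only [id, Pi.mul_apply]
  field_simp
  ring

theorem analyticAt_Vn {q : ℂ} (h1 : ‖q‖ < 1) : AnalyticAt ℂ Vn q := by
  unfold Vn
  have h2 := analyticAt_Wn h1
  have h3 := analyticAt_phi h1
  have h4 := h2.deriv
  have h5 := h3.deriv
  fun_prop

theorem differentiableAt_vq {q : ℂ} (h0 : q ≠ 0) (h1 : ‖q‖ < 1) : DifferentiableAt ℂ vq q := by
  have hp := phi_ne_zero h1
  unfold vq
  exact (analyticAt_Vn h1).differentiableAt.div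
    ((by fun_prop : DifferentiableAt ℂ (fun q : ℂ ↦ q ^ 2) q).mul ((differentiableAt_phi h1).pow 3))
    (mul_ne_zero (pow_ne_zero 2 h0) (pow_ne_zero 3 hp))

/-- `2 v v' = Q'(w) w'`. -/
theorem deriv_vq {q : ℂ} (h0 : q ≠ 0) (h1 : ‖q‖ < 1) (hW : vq q ≠ 0) :
    deriv vq q = (4 * wq q ^ 3 - 12 * wq q ^ 2 - 176 * wq q - 300) * phi q / 2 := by
  have hT := hasDerivAt_wq h0 h1
  have hopen : IsOpen {q : ℂ | q ≠ 0 ∧ ‖q‖ < 1} := by
    apply IsOpen.inter
    · exact isOpen_ne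
    · exact isOpen_lt continuous_norm continuous_const
  have e : (fun q ↦ vq q ^ 2) =ᶠ[𝓝 q]
      fun q ↦ wq q ^ 4 - 4 * wq q ^ 3 - 88 * wq q ^ 2 - 300 * wq q - 304 := by
    filter_upwards [hopen.mem_nhds ⟨h0, h1⟩] with u hu
    rw [vq_sq hu.1 hu.2]
  have d1 : HasDerivAt (fun q ↦ vq q ^ 2) (2 * vq q * deriv vq q) q := by
    have := (differentiableAt_vq h0 h1).hasDerivAt.pow 2
    refine this.congr_deriv ?_
    simp
  have d2 : HasDerivAt (fun q ↦ wq q ^ 4 - 4 * wq q ^ 3 - 88 * wq q ^ 2 - 300 * wq q - 304)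
      ((4 * wq q ^ 3 - 12 * wq q ^ 2 - 176 * wq q - 300) * (vq q * phi q)) q := by
    have := ((((hT.pow 4).sub ((hT.pow 3).const_mul 4)).sub ((hT.pow 2).const_mul 88)).sub
      (hT.const_mul 300)).sub_const 304
    refine this.congr_deriv ?_
    simp
    ring
  have h := d1.unique (d2.congr_of_eventuallyEq e)
  have h2 : 2 * vq q * deriv vq q =
      2 * vq q * ((4 * wq q ^ 3 - 12 * wq q ^ 2 - 176 * wq q - 300) * phi q / 2) := by
    rw [h]; ring
  exact mul_left_cancel₀ (mul_ne_zero two_ne_zero hW) h2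

theorem phi_zero : phi 0 = 1 := by
  obtain ⟨r, hr, h⟩ := phi_expansion
  simpa using h.self_of_nhds

theorem ee_zero : ee 0 = 1 := by
  obtain ⟨r, hr, h⟩ := ee_expansion
  simpa using h.self_of_nhds

theorem Wn_zero : Wn 0 = 1 := by
  simp [Wn, ee_zero]

theorem Vn_zero : Vn 0 = -1 := by
  simp [Vn, Wn_zero, phi_zero]

theorem eventually_disc : ∀ᶠ q in 𝓝[≠] (0 : ℂ), q ≠ 0 ∧ ‖q‖ < 1 ∧ vq q ≠ 0 := by
  have h1 : ∀ᶠ q in 𝓝 (0 : ℂ), ‖q‖ < 1 := by
    have : ContinuousAt (fun q : ℂ ↦ ‖q‖) 0 := by fun_prop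
    exact this.eventually (gt_mem_nhds (by simp))
  have h2 : ∀ᶠ q in 𝓝 (0 : ℂ), Vn q ≠ 0 := by
    have : ContinuousAt Vn 0 := (analyticAt_Vn (by simp)).continuousAt
    exact this.eventually_ne (by rw [Vn_zero]; norm_num)
  filter_upwards [h1.filter_mono nhdsWithin_le_nhds, h2.filter_mono nhdsWithin_le_nhds,
    self_mem_nhdsWithin] with q e1 e2 hq
  have hq : q ≠ 0 := hq
  refine ⟨hq, e1, ?_⟩
  rw [vq]
  exact div_ne_zero e2 (mul_ne_zero (pow_ne_zero 2 hq) (pow_ne_zero 3 (phi_ne_zero e1)))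

theorem hasDerivAt_Xq {q : ℂ} (h0 : q ≠ 0) (h1 : ‖q‖ < 1) (hW : vq q ≠ 0) :
    HasDerivAt Xq (phi q * ((wq q - 1) * vq q -
      (wq q ^ 3 - 3 * wq q ^ 2 - 44 * wq q - 75))) q := by
  have hT := hasDerivAt_wq h0 h1
  have hWd := (differentiableAt_vq h0 h1).hasDerivAt
  have h := (((((hT.pow 2).sub (hT.const_mul 2)).sub_const 14).sub hWd).div_const 2).sub_const
    (1 / 3)
  refine h.congr_deriv ?_
  rw [deriv_vq h0 h1 hW]
  simp
  ring

theorem Xq_ode {q : ℂ} (h0 : q ≠ 0) (h1 : ‖q‖ < 1) (hW : vq q ≠ 0) :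
    deriv Xq q ^ 2 = phi q ^ 2 * (4 * Xq q ^ 3 - 124 / 3 * Xq q - 2501 / 27) := by
  rw [(hasDerivAt_Xq h0 h1 hW).deriv, mul_pow]
  congr 1
  have h := vq_sq h0 h1
  rw [Xq]
  linear_combination (vq q / 2 - (wq q ^ 2 - 2 * wq q - 46) / 2) * h

theorem analyticAt_GG_zero : AnalyticAt ℂ GG 0 :=
  GG_spec.1.analyticAt (Metric.isOpen_ball.mem_nhds (by simp))

theorem deriv_GG {q : ℂ} (hq : ‖q‖ < 1) : deriv GG q = phi q :=
  (GG_spec.2.2.1 q (by simpa using hq)).deriv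

theorem analyticAt_xi : AnalyticAt ℂ (fun q ↦ ((Wn q / phi q) ^ 2 - 2 * q * (Wn q / phi q) -
    14 * q ^ 2 - Vn q / phi q ^ 3) / 2 - q ^ 2 / 3) 0 := by
  have a1 : AnalyticAt ℂ Wn 0 := analyticAt_Wn (by simp)
  have a2 : AnalyticAt ℂ phi 0 := analyticAt_phi (by simp)
  have a3 : AnalyticAt ℂ Vn 0 := analyticAt_Vn (by simp)
  have a4 : phi 0 ≠ 0 := phi_ne_zero (by simp)
  have a5 : AnalyticAt ℂ (fun q ↦ Wn q / phi q) 0 := a1.div a2 a4
  have a6 : AnalyticAt ℂ (fun q ↦ Vn q / phi q ^ 3) 0 := a3.div (a2.pow 3) (pow_ne_zero 3 a4)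
  generalize (fun q ↦ Wn q / phi q) = s at a5
  have h1 : AnalyticAt ℂ (fun q : ℂ ↦ q ^ 2 / 3) 0 := by fun_prop
  have h2 : AnalyticAt ℂ (fun q : ℂ ↦ 14 * q ^ 2) 0 := by fun_prop
  have h3 : AnalyticAt ℂ (fun q : ℂ ↦ 2 * q) 0 := by fun_prop
  have a5 : AnalyticAt ℂ (fun q ↦ Wn q / phi q) 0 := a1.div a2 a4
  exact ((((a5.pow 2).sub (h3.mul a5)).sub h2).sub a6).div_const.sub h1

/-- Uniformisation near the cusp. -/
theorem Xq_eq (L : PeriodPair) (h2 : L.g₂ = 124 / 3) (h3 : L.g₃ = 2501 / 27) :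
    ∀ᶠ q in 𝓝[≠] (0 : ℂ), Xq q = ℘[L] (GG q) := by
  refine weierstrassP_unique L GG Xq _ analyticAt_GG_zero GG_spec.2.1
    (by rw [deriv_GG (by simp), phi_zero]) analyticAt_xi ?_ ?_ ?_
  · simp only [Wn_zero, Vn_zero, phi_zero]
    norm_num
  · filter_upwards [eventually_disc] with q hq
    obtain ⟨h0, h1, -⟩ := hq
    have hp := phi_ne_zero h1
    rw [Xq, wq, vq]
    field_simp
  · filter_upwards [eventually_disc] with q hq
    obtain ⟨h0, h1, hW⟩ := hq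
    rw [Xq_ode h0 h1 hW, deriv_GG h1, h2, h3]

theorem differentiableOn_xx : DifferentiableOn ℂ xx {z | 0 < z.im} := by
  unfold xx
  exact ((((differentiableOn_ww.pow 2).sub (differentiableOn_ww.const_mul 2)).sub_const _).sub
    differentiableOn_vv).div_const 2

theorem differentiableOn_FF : DifferentiableOn ℂ FF {z | 0 < z.im} :=
  fun _ hz ↦ (hasDerivAt_FF hz).differentiableAt.differentiableWithinAt

theorem GG_ne_zero_near : ∀ᶠ q in 𝓝[≠] (0 : ℂ), GG q ≠ 0 := by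
  have h := (GG_spec.2.2.1 0 (by simp))
  have := h.eventually_ne (c := 0) (by rw [phi_zero]; norm_num)
  simpa using this

/-- `℘(FF z) = x(z) - 1/3` on the whole upper half plane. -/
theorem wP_FF (L : PeriodPair) (h2 : L.g₂ = 124 / 3) (h3 : L.g₃ = 2501 / 27) :
    ∀ z : ℂ, 0 < z.im → FF z ∉ L.lattice ∧ ℘[L] (FF z) = xx z - 1 / 3 := by
  -- `GG q ∉ L` near `0`
  have hL : ∀ᶠ u in 𝓝[≠] (0 : ℂ), u ∉ L.lattice := by
    have := L.compl_lattice_sdiff_singleton_mem_nhds 0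
    rw [eventually_nhdsWithin_iff]
    filter_upwards [this] with u hu hu0 hmem
    exact hu ⟨hmem, hu0⟩
  have hG0 : Tendsto GG (𝓝[≠] 0) (𝓝[≠] 0) := by
    rw [tendsto_nhdsWithin_iff]
    refine ⟨?_, GG_ne_zero_near⟩
    have := analyticAt_GG_zero.continuousAt.tendsto
    rw [GG_spec.2.1] at this
    exact this.mono_left nhdsWithin_le_nhds
  have h1 : ∀ᶠ q in 𝓝[≠] (0 : ℂ), GG q ∉ L.lattice := hG0.eventually hL
  have h4 := (Xq_eq L h2 h3).and h1
  obtain ⟨A, hA⟩ := eventually_qq h4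
  set z₀ : ℂ := ((max A 0 + 1 : ℝ) : ℂ) * I with hz₀
  have him : z₀.im = max A 0 + 1 := by simp [hz₀]
  have hpos : 0 < z₀.im := by rw [him]; positivity
  refine weierstrassP_comp_eq L FF (fun z ↦ xx z - 1 / 3) differentiableOn_FF
    (differentiableOn_xx.sub_const _) z₀ hpos ?_ ?_
  · exact (hA z₀ (by rw [him]; linarith [le_max_left A 0])).2
  · have hopen : IsOpen {z : ℂ | max A 0 < z.im} := isOpen_lt continuous_const Complex.continuous_im
    filter_upwards [hopen.mem_nhds (show max A 0 < z₀.im by rw [him]; linarith)] with z hz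
    have hz : max A 0 < z.im := hz
    have hz1 : 0 < z.im := (le_max_right A 0).trans_lt hz
    rw [xx_eq hz1, (hA z ((le_max_left A 0).trans hz.le)).1, FF]

end X11
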