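import Pool.Agent.MP_9ab903_nt.MF.B
import Pool.Agent.MP_9c45e8_nt.Q

/-!
[NC11] `q`-expansions of the eta quotient and of the modular unit, and the primitive `GG`.
-/

open Complex Filter
open UpperHalfPlane hiding I
open scoped MatrixGroups Real ModularForm Topology

noncomputable section

namespace X11

open MP9c45e8 (mob jj jj_ne_zero mob_im mob_im_pos jj_mul mob_mul
  isPreconnected_H isOpen_H differentiableAt_mob mob_smul jj_smul ne_zero_of_im mob_one jj_one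
  det_upper sub_div_im qq AA norm_qq qq_norm_lt qq_ne_zero qq_mul exists_qq eta_eq AA_ne_zero
  norm_pow_lt differentiableOn_AA differentiableOn_AA_pow AA_conj analyticAt_AA analyticAt_AA_pow
  exists_of_bound hasDerivAt_qq)

/-- `etaF / q` as a function of `q` -/
def phi (q : ℂ) : ℂ := AA q ^ 2 * AA (q ^ 11) ^ 2

/-- `q⁻¹⁰ RR` as a function of `q` -/
def rho (q : ℂ) : ℂ := (AA (q ^ 11) / AA q) ^ 24

theorem etaF_eq (z : ℂ) : etaF z = qq z * phi (qq z) := by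
  have h11 := qq_mul 11 z
  push_cast at h11
  have e : cexp (2 * π * I * z / 24) ^ 2 * cexp (2 * π * I * (11 * z) / 24) ^ 2 = qq z := by
    rw [← Complex.exp_nat_mul, ← Complex.exp_nat_mul, ← Complex.exp_add, qq]
    congr 1
    push_cast
    ring
  unfold etaF phi
  rw [eta_eq, eta_eq, h11]
  rw [← e]
  ring

theorem RR_eq {z : ℂ} (hz : 0 < z.im) : RR z = qq z ^ 10 * rho (qq z) := by
  have h11 := qq_mul 11 z
  push_cast at h11
  have hne : AA (qq z) ≠ 0 := AA_ne_zero (qq_norm_lt hz)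
  have e : cexp (2 * π * I * (11 * z) / 24) ^ 24 = qq z ^ 10 * cexp (2 * π * I * z / 24) ^ 24 := by
    rw [← Complex.exp_nat_mul, ← Complex.exp_nat_mul, qq, ← Complex.exp_nat_mul, ← Complex.exp_add]
    congr 1
    push_cast
    ring
  have hne2 : cexp (2 * π * I * z / 24) ≠ 0 := Complex.exp_ne_zero _
  unfold RR rho
  rw [eta_eq, eta_eq, h11, mul_div_mul_comm, mul_pow, div_pow, e]
  field_simp

theorem phi_ne_zero {q : ℂ} (hq : ‖q‖ < 1) : phi q ≠ 0 := by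
  unfold phi
  exact mul_ne_zero (pow_ne_zero 2 (AA_ne_zero hq))
    (pow_ne_zero 2 (AA_ne_zero (norm_pow_lt hq (by norm_num))))

theorem rho_ne_zero {q : ℂ} (hq : ‖q‖ < 1) : rho q ≠ 0 := by
  unfold rho
  exact pow_ne_zero _ (div_ne_zero (AA_ne_zero (norm_pow_lt hq (by norm_num))) (AA_ne_zero hq))

theorem differentiableOn_phi : DifferentiableOn ℂ phi (Metric.ball 0 1) := by
  unfold phi
  exact (differentiableOn_AA.pow 2).mul ((differentiableOn_AA_pow (by norm_num)).pow 2)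

theorem phi_conj {q : ℂ} (hq : ‖q‖ < 1) : phi ((starRingEnd ℂ) q) = (starRingEnd ℂ) (phi q) := by
  unfold phi
  rw [← map_pow, AA_conj hq, AA_conj (norm_pow_lt hq (by norm_num)), map_mul, map_pow, map_pow]

/-! ### Expansions -/

/-- `∏_{n ≥ 5} (1 - qⁿ)` -/
def BB (q : ℂ) : ℂ := ∏' n : ℕ, (1 - q ^ (n + 4 + 1))

theorem multipliable_BB {q : ℂ} (hq : ‖q‖ < 1) : Multipliable fun n : ℕ => 1 - q ^ (n + 4 + 1) := by
  simp_rw [sub_eq_add_neg]
  apply multipliable_one_add_of_summable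
  simpa using (summable_nat_add_iff 5).mpr (summable_geometric_of_lt_one (norm_nonneg _) hq)

theorem AA_eq_BB {q : ℂ} (hq : ‖q‖ < 1) :
    AA q = (1 - q) * (1 - q ^ 2) * (1 - q ^ 3) * (1 - q ^ 4) * BB q := by
  have h := (Multipliable.prod_mul_tprod_nat_mul' (f := fun n : ℕ => 1 - q ^ (n + 1)) (k := 4)
    (multipliable_BB hq))
  unfold AA BB
  rw [← h, Finset.prod_range_succ, Finset.prod_range_succ, Finset.prod_range_succ,
    Finset.prod_range_one]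
  simp

theorem BB_bound {q : ℂ} (hq : ‖q‖ ≤ 1 / 2) : ‖BB q - 1‖ ≤ 4 * ‖q‖ ^ 5 := by
  have hq1 : ‖q‖ < 1 := by linarith
  have hn := norm_nonneg q
  have h1 := (multipliable_BB hq1).hasProd.tendsto_prod_nat
  have h2 : Tendsto (fun n : ℕ => ‖∏ i ∈ Finset.range n, (1 - q ^ (i + 4 + 1)) - 1‖) atTop
      (𝓝 ‖BB q - 1‖) := (h1.sub_const 1).norm
  refine le_of_tendsto' h2 fun n => ?_
  have h3 := Finset.norm_prod_one_add_sub_one_le (Finset.range n) (fun i => -q ^ (i + 4 + 1))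
  have h4 : ∑ i ∈ Finset.range n, ‖-q ^ (i + 4 + 1)‖ ≤ 2 * ‖q‖ ^ 5 := by
    calc ∑ i ∈ Finset.range n, ‖-q ^ (i + 4 + 1)‖
        = ‖q‖ ^ 5 * ∑ i ∈ Finset.range n, ‖q‖ ^ i := by
          rw [Finset.mul_sum]
          refine Finset.sum_congr rfl fun i _ => ?_
          rw [norm_neg, norm_pow]
          ring
      _ ≤ ‖q‖ ^ 5 * 2 := by
          apply mul_le_mul_of_nonneg_left _ (by positivity)
          calc ∑ i ∈ Finset.range n, ‖q‖ ^ i ≤ ∑' i : ℕ, ‖q‖ ^ i :=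
                (summable_geometric_of_lt_one hn hq1).sum_le_tsum _ (fun i _ => by positivity)
            _ = (1 - ‖q‖)⁻¹ := tsum_geometric_of_lt_one hn hq1
            _ ≤ 2 := by
                rw [inv_le_comm₀ (by linarith) (by norm_num)]
                linarith
      _ = 2 * ‖q‖ ^ 5 := by ring
  have h5 : ‖∏ i ∈ Finset.range n, (1 - q ^ (i + 4 + 1)) - 1‖ ≤ Real.exp (2 * ‖q‖ ^ 5) - 1 := by
    have h6 : ∏ i ∈ Finset.range n, (1 - q ^ (i + 4 + 1)) =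
        ∏ i ∈ Finset.range n, (1 + -q ^ (i + 4 + 1)) :=
      Finset.prod_congr rfl fun i _ => sub_eq_add_neg _ _
    rw [h6]
    refine h3.trans ?_
    have := Real.exp_le_exp.2 h4
    linarith
  have h7 : ‖q‖ ^ 5 ≤ (1 / 2) ^ 5 := pow_le_pow_left₀ hn hq 5
  have h8 : |2 * ‖q‖ ^ 5| ≤ 1 := by
    rw [abs_of_nonneg (by positivity)]
    norm_num at h7
    linarith
  have h9 := Real.abs_exp_sub_one_le h8
  rw [abs_of_nonneg (a := 2 * ‖q‖ ^ 5) (by positivity)] at h9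
  have h10 := le_abs_self (Real.exp (2 * ‖q‖ ^ 5) - 1)
  linarith

theorem AA_expansion : ∃ r : ℂ → ℂ, AnalyticAt ℂ r 0 ∧
    ∀ᶠ q in 𝓝 (0 : ℂ), AA q = 1 - q - q ^ 2 + q ^ 5 * r q := by
  have han : AnalyticAt ℂ (fun q => AA q - (1 - q - q ^ 2)) 0 := by
    apply analyticAt_AA.sub
    fun_prop
  obtain ⟨r, hr, h⟩ := exists_of_bound han 5 (2 ^ 4 * 4 + 5) (by
    filter_upwards [Metric.ball_mem_nhds (0 : ℂ) (by norm_num : (0 : ℝ) < 1 / 2)] with q hq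
    rw [mem_ball_zero_iff] at hq
    have hn := norm_nonneg q
    rw [AA_eq_BB (by linarith)]
    have e : (1 - q) * (1 - q ^ 2) * (1 - q ^ 3) * (1 - q ^ 4) * BB q - (1 - q - q ^ 2) =
        (1 - q) * (1 - q ^ 2) * (1 - q ^ 3) * (1 - q ^ 4) * (BB q - 1) +
          q ^ 5 * (2 - q ^ 3 - q ^ 4 + q ^ 5) := by ring
    rw [e]
    have hk : ∀ k : ℕ, ‖q ^ k‖ ≤ 1 := fun k ↦ by
      rw [norm_pow]; exact pow_le_one₀ hn (by linarith)
    have h1 : ∀ k : ℕ, ‖1 - q ^ k‖ ≤ 2 := fun k ↦ by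
      calc ‖1 - q ^ k‖ ≤ ‖(1 : ℂ)‖ + ‖q ^ k‖ := norm_sub_le _ _
        _ ≤ 2 := by rw [norm_one]; linarith [hk k]
    have h11 := h1 1
    rw [pow_one] at h11
    have h3 := BB_bound hq.le
    have h2 : ‖(1 - q) * (1 - q ^ 2) * (1 - q ^ 3) * (1 - q ^ 4)‖ ≤ 2 ^ 4 := by
      rw [norm_mul, norm_mul, norm_mul]
      calc _ ≤ 2 * 2 * 2 * (2 : ℝ) := by
            gcongr
            · exact h1 2
            · exact h1 3
            · exact h1 4
        _ = _ := by norm_num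
    have h4 : ‖2 - q ^ 3 - q ^ 4 + q ^ 5‖ ≤ 5 := by
      calc ‖2 - q ^ 3 - q ^ 4 + q ^ 5‖ ≤ ‖2 - q ^ 3 - q ^ 4‖ + ‖q ^ 5‖ := norm_add_le _ _
        _ ≤ ‖2 - q ^ 3‖ + ‖q ^ 4‖ + ‖q ^ 5‖ := by gcongr; exact norm_sub_le _ _
        _ ≤ ‖(2 : ℂ)‖ + ‖q ^ 3‖ + ‖q ^ 4‖ + ‖q ^ 5‖ := by gcongr; exact norm_sub_le _ _
        _ ≤ 5 := by
          have := hk 3
          have := hk 4
          have := hk 5
          have : ‖(2 : ℂ)‖ = 2 := by simp
          linarith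
    calc ‖(1 - q) * (1 - q ^ 2) * (1 - q ^ 3) * (1 - q ^ 4) * (BB q - 1) +
          q ^ 5 * (2 - q ^ 3 - q ^ 4 + q ^ 5)‖
        ≤ ‖(1 - q) * (1 - q ^ 2) * (1 - q ^ 3) * (1 - q ^ 4)‖ * ‖BB q - 1‖ +
          ‖q‖ ^ 5 * ‖2 - q ^ 3 - q ^ 4 + q ^ 5‖ := by
          refine (norm_add_le _ _).trans ?_
          rw [norm_mul (_ * (1 - q ^ 4)), norm_mul (q ^ 5), norm_pow]
      _ ≤ 2 ^ 4 * (4 * ‖q‖ ^ 5) + ‖q‖ ^ 5 * 5 := by gcongr
      _ = (2 ^ 4 * 4 + 5) * ‖q‖ ^ 5 := by ring)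
  refine ⟨r, hr, h.mono fun q hq => ?_⟩
  linear_combination hq

/-- `AA (q ^ 11) = 1 + q ^ 11 r` -/
theorem AA11_expansion : ∃ r : ℂ → ℂ, AnalyticAt ℂ r 0 ∧
    ∀ᶠ q in 𝓝 (0 : ℂ), AA (q ^ 11) = 1 + q ^ 11 * r q := by
  obtain ⟨r, hr, h⟩ := AA_expansion
  have hc : Tendsto (fun q : ℂ => q ^ 11) (𝓝 0) (𝓝 0) := by
    have := (continuous_pow (M := ℂ) 11).tendsto 0
    rwa [zero_pow (by norm_num)] at this
  have hr' : AnalyticAt ℂ (fun q => r (q ^ 11)) 0 := by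
    refine AnalyticAt.fun_comp (g := r) (f := fun q : ℂ => q ^ 11) ?_ (by fun_prop)
    rw [zero_pow (by norm_num)]
    exact hr
  have h' := hc.eventually h
  generalize hs : (fun q => r (q ^ 11)) = s at hr'
  refine ⟨fun q => -1 - q ^ 11 + q ^ 44 * s q, by fun_prop, ?_⟩
  filter_upwards [h'] with q hq
  rw [hq, ← hs]; ring

theorem phi_expansion : ∃ r : ℂ → ℂ, AnalyticAt ℂ r 0 ∧
    ∀ᶠ q in 𝓝 (0 : ℂ), phi q = 1 - 2 * q - q ^ 2 + 2 * q ^ 3 + q ^ 4 + q ^ 5 * r q := by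
  obtain ⟨r1, hr1, h1⟩ := AA_expansion
  obtain ⟨r2, hr2, h2⟩ := AA11_expansion
  refine ⟨fun q => 2 * (1 - q - q ^ 2) * r1 q + q ^ 5 * r1 q ^ 2 +
    (1 - q - q ^ 2 + q ^ 5 * r1 q) ^ 2 * (2 * q ^ 6 * r2 q + q ^ 17 * r2 q ^ 2), by fun_prop, ?_⟩
  filter_upwards [h1, h2] with q h1 h2
  unfold phi
  rw [h1, h2]
  ring

/-- `q A'(q) / A(q)` -/
def LA (q : ℂ) : ℂ := q * deriv AA q / AA q

theorem analyticAt_AA' {q : ℂ} (hq : ‖q‖ < 1) : AnalyticAt ℂ AA q :=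
  differentiableOn_AA.analyticAt (Metric.isOpen_ball.mem_nhds (by simpa using hq))

theorem analyticAt_LA {q : ℂ} (hq : ‖q‖ < 1) : AnalyticAt ℂ LA q := by
  unfold LA
  exact (analyticAt_id.mul (analyticAt_AA' hq).deriv).div (analyticAt_AA' hq) (AA_ne_zero hq)

theorem LA_expansion : ∃ r : ℂ → ℂ, AnalyticAt ℂ r 0 ∧
    ∀ᶠ q in 𝓝 (0 : ℂ), LA q = -(q + 3 * q ^ 2 + 4 * q ^ 3 + 7 * q ^ 4) + q ^ 5 * r q := by
  obtain ⟨r, hr, h⟩ := AA_expansion
  refine ⟨fun q => (-11 - 7 * q + 5 * r q + q * deriv r q +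
    (q + 3 * q ^ 2 + 4 * q ^ 3 + 7 * q ^ 4) * r q) / AA q, ?_, ?_⟩
  · have h1 := hr.deriv
    have h2 : AnalyticAt ℂ AA 0 := analyticAt_AA
    exact AnalyticAt.div (by fun_prop) h2 (AA_ne_zero (by simp))
  · have h2 := h.eventually_nhds
    filter_upwards [h2, hr.eventually_analyticAt, Metric.ball_mem_nhds (0 : ℂ) one_pos]
      with q e hrq hq
    rw [mem_ball_zero_iff] at hq
    have hA := AA_ne_zero hq
    have hd : deriv AA q = deriv (fun q ↦ 1 - q - q ^ 2 + q ^ 5 * r q) q :=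
      Filter.EventuallyEq.deriv_eq e
    have hd2 : HasDerivAt (fun q ↦ 1 - q - q ^ 2 + q ^ 5 * r q)
        (0 - 1 - 2 * q + (5 * q ^ 4 * r q + q ^ 5 * deriv r q)) q := by
      have h1 := (hasDerivAt_const q (1 : ℂ)).sub (hasDerivAt_id q)
      have h2 := (hasDerivAt_pow 2 q)
      have h3 := (hasDerivAt_pow 5 q).mul hrq.differentiableAt.hasDerivAt
      have h4 := (h1.sub h2).add h3
      refine h4.congr_deriv ?_
      simp
    rw [LA, hd, hd2.deriv, div_eq_iff hA, add_mul, mul_assoc (q ^ 5), div_mul_cancel₀ _ hA,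
      e.self_of_nhds]
    ring

/-- the Eisenstein series as a function of `q`: `1 + (12/5)(11 L(q¹¹) - L(q))`, `L = q A'/A` -/
def ee (q : ℂ) : ℂ := 1 + 12 / 5 * (11 * LA (q ^ 11) - LA q)

theorem analyticAt_ee {q : ℂ} (hq : ‖q‖ < 1) : AnalyticAt ℂ ee q := by
  unfold ee
  have h1 := analyticAt_LA hq
  have h2 : AnalyticAt ℂ (fun q ↦ LA (q ^ 11)) q :=
    AnalyticAt.fun_comp (g := LA) (f := fun q : ℂ => q ^ 11)
      (analyticAt_LA (norm_pow_lt hq (by norm_num))) (by fun_prop)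
  fun_prop

theorem ee_expansion : ∃ r : ℂ → ℂ, AnalyticAt ℂ r 0 ∧
    ∀ᶠ q in 𝓝 (0 : ℂ), ee q = 1 + 12 / 5 * (q + 3 * q ^ 2 + 4 * q ^ 3 + 7 * q ^ 4) +
      q ^ 5 * r q := by
  obtain ⟨r, hr, h⟩ := LA_expansion
  have hc : Tendsto (fun q : ℂ => q ^ 11) (𝓝 0) (𝓝 0) := by
    have := (continuous_pow (M := ℂ) 11).tendsto 0
    rwa [zero_pow (by norm_num)] at this
  have hr' : AnalyticAt ℂ (fun q => r (q ^ 11)) 0 := by
    refine AnalyticAt.fun_comp (g := r) (f := fun q : ℂ => q ^ 11) ?_ (by fun_prop)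
    rw [zero_pow (by norm_num)]
    exact hr
  have h' := hc.eventually h
  generalize hs : (fun q => r (q ^ 11)) = s at hr'
  refine ⟨fun q => 12 / 5 * (-r q + 11 * (-(q ^ 6 + 3 * q ^ 17 + 4 * q ^ 28 + 7 * q ^ 39) +
    q ^ 50 * s q)), by fun_prop, ?_⟩
  filter_upwards [h, h'] with q h1 h2
  unfold ee
  rw [h1, h2, ← hs]
  ring

/-! ### The primitive -/

theorem exists_G : ∃ G : ℂ → ℂ, DifferentiableOn ℂ G (Metric.ball 0 1) ∧ G 0 = 0 ∧
    (∀ q ∈ Metric.ball (0 : ℂ) 1, HasDerivAt G (phi q) q) ∧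
    ∀ q ∈ Metric.ball (0 : ℂ) 1, G ((starRingEnd ℂ) q) = (starRingEnd ℂ) (G q) := by
  obtain ⟨G, hG0, hG⟩ := differentiableOn_phi.isExactOn_ball.with_val_at 0 0
  have hGd : DifferentiableOn ℂ G (Metric.ball 0 1) :=
    fun q hq => (hG q hq).differentiableAt.differentiableWithinAt
  refine ⟨G, hGd, hG0, hG, ?_⟩
  -- the conjugate function
  have hH : ∀ q ∈ Metric.ball (0 : ℂ) 1,
      HasDerivAt ((starRingEnd ℂ) ∘ G ∘ (starRingEnd ℂ)) (phi q) q := by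
    intro q hq
    have hq' : (starRingEnd ℂ) q ∈ Metric.ball (0 : ℂ) 1 := by
      rw [mem_ball_zero_iff] at hq ⊢
      rwa [RCLike.norm_conj]
    have h1 := (hG _ hq').conj_conj
    rw [mem_ball_zero_iff] at hq
    rwa [phi_conj hq, Complex.conj_conj, Complex.conj_conj] at h1
  have key : ∀ q ∈ Metric.ball (0 : ℂ) 1, G q = ((starRingEnd ℂ) ∘ G ∘ (starRingEnd ℂ)) q := by
    intro q hq
    have hdiff : ∀ x ∈ Metric.ball (0 : ℂ) 1,
        HasDerivWithinAt (fun y => G y - ((starRingEnd ℂ) ∘ G ∘ (starRingEnd ℂ)) y) 0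
          (Metric.ball (0 : ℂ) 1) x := by
      intro x hx
      have := (hG x hx).sub (hH x hx)
      rw [sub_self] at this
      exact this.hasDerivWithinAt
    have h2 := (convex_ball (0 : ℂ) 1).norm_image_sub_le_of_norm_hasDerivWithin_le (C := 0)
      hdiff (fun x _ => by simp) (Metric.mem_ball_self one_pos) hq
    rw [zero_mul] at h2
    have h3 := norm_le_zero_iff.1 h2
    simp only [Function.comp_apply, map_zero, hG0, sub_self, sub_zero] at h3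
    simp only [Function.comp_apply]
    exact sub_eq_zero.1 h3
  intro q hq
  have h4 := key q hq
  simp only [Function.comp_apply] at h4
  rw [h4, Complex.conj_conj]

/-- The primitive of `phi` vanishing at `0`. -/
def GG : ℂ → ℂ := Classical.choose exists_G

/-- `2πi ∫_{i∞}^z F(w) dw` -/
def FF (z : ℂ) : ℂ := GG (qq z)

theorem GG_spec : DifferentiableOn ℂ GG (Metric.ball 0 1) ∧ GG 0 = 0 ∧
    (∀ q ∈ Metric.ball (0 : ℂ) 1, HasDerivAt GG (phi q) q) ∧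
    ∀ q ∈ Metric.ball (0 : ℂ) 1, GG ((starRingEnd ℂ) q) = (starRingEnd ℂ) (GG q) :=
  Classical.choose_spec exists_G

theorem FF_conj {z : ℂ} (hz : 0 < z.im) : FF (-(starRingEnd ℂ) z) = (starRingEnd ℂ) (FF z) := by
  have h := GG_spec.2.2.2 (qq z) (by
    rw [mem_ball_zero_iff]; exact qq_norm_lt hz)
  change GG ((starRingEnd ℂ) (qq z)) = (starRingEnd ℂ) (GG (qq z)) at h
  unfold FF
  rw [← h]
  unfold qq
  rw [← Complex.exp_conj]
  congr 2
  have h2 : (starRingEnd ℂ) 2 = 2 := Complex.conj_ofNat 2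
  simp only [map_mul, h2, Complex.conj_I, Complex.conj_ofReal]
  ring

theorem hasDerivAt_FF {z : ℂ} (hz : 0 < z.im) : HasDerivAt FF (2 * π * I * etaF z) z := by
  have h := GG_spec.2.2.1 (qq z) (by
    rw [mem_ball_zero_iff]; exact qq_norm_lt hz)
  have h2 := HasDerivAt.comp z h (hasDerivAt_qq z)
  rw [etaF_eq]
  have e : 2 * π * I * (qq z * phi (qq z)) = phi (qq z) * (2 * π * I * qq z) := by ring
  rw [e]
  exact h2

/-- `FF → 0` at `i∞`. -/
theorem FF_small (ε : ℝ) (hε : 0 < ε) : ∃ A : ℝ, ∀ z : ℂ, A ≤ z.im → 0 < z.im → ‖FF z‖ < ε := by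
  have hc : ContinuousAt GG 0 :=
    (GG_spec.2.2.1 0 (Metric.mem_ball_self one_pos)).continuousAt
  have h0 : GG 0 = 0 := GG_spec.2.1
  rw [Metric.continuousAt_iff] at hc
  obtain ⟨δ, hδ, h⟩ := hc ε hε
  refine ⟨-Real.log δ / (2 * π) + 1, fun z hz _ => ?_⟩
  have hpi := Real.pi_pos
  have h1 : dist (qq z) 0 < δ := by
    rw [dist_zero_right, norm_qq, ← Real.lt_log_iff_exp_lt hδ]
    have h2 : -Real.log δ / (2 * π) < z.im := by linarith
    rw [div_lt_iff₀ (by positivity)] at h2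
    linarith
  have h2 := h h1
  rwa [h0, dist_zero_right] at h2

/-- exponential decay of `etaF` at `i∞` -/
theorem etaF_bound : ∃ C : ℝ, ∀ z : ℂ, 1 ≤ z.im → ‖etaF z‖ ≤ C * Real.exp (-2 * π * z.im) := by
  have hpi := Real.pi_pos
  have hr : Real.exp (-2 * π) < 1 := by
    rw [Real.exp_lt_one_iff]; linarith
  have hsub : Metric.closedBall (0 : ℂ) (Real.exp (-2 * π)) ⊆ Metric.ball 0 1 :=
    Metric.closedBall_subset_ball hr
  obtain ⟨C, hC⟩ := (isCompact_closedBall (0 : ℂ) (Real.exp (-2 * π))).exists_bound_of_continuousOn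
    (differentiableOn_phi.continuousOn.mono hsub)
  refine ⟨C, fun z hz => ?_⟩
  rw [etaF_eq, norm_mul, norm_qq, mul_comm]
  apply mul_le_mul_of_nonneg_right _ (Real.exp_pos _).le
  apply hC
  rw [mem_closedBall_zero_iff, norm_qq]
  apply Real.exp_le_exp.2
  nlinarith

end X11
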